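import Mathlib

/-! Exponential-logarithmic towers. -/

namespace Pool.Agent.MP_bdc901_nt

/-- `b ^ x = exp (x * log b)` with the principal value of the logarithm. -/
noncomputable def bpow (b x : ℂ) : ℂ := Complex.exp (x * Complex.log b)

/-- The algebraic closure inside `ℂ` of the field generated by `S`. -/
def acl (S : Set ℂ) : Set ℂ := {z | IsAlgebraic (Subfield.closure S) z}

/-- The levels of the tower with base `b`. -/
def ELn (b : ℂ) : ℕ → Set ℂ
  | 0 => Set.range ((↑) : ℚ → ℂ)
  | n + 1 => acl (ELn b n ∪ (bpow b '' ELn b n ∪ bpow b ⁻¹' ELn b n))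

/-- The exponential-logarithmic tower with base `b`. -/
def EL (b : ℂ) : Set ℂ := ⋃ n, ELn b n

/-- The Schanuel conjecture. -/
def Schanuel : Prop :=
  ∀ (n : ℕ) (z : Fin n → ℂ), LinearIndependent ℚ z → ∃ f : Fin n → Fin n ⊕ Fin n,
    AlgebraicIndependent ℚ fun i => Sum.elim z (fun j => Complex.exp (z j)) (f i)

/-- The map `t ↦ t + exp (2 π i t)`. -/
noncomputable def nxt (t : ℂ) : ℂ := t + Complex.exp (2 * Real.pi * Complex.I * t)

/-- The iterates of `nxt` at `c` are transcendental and give a strictly descending chain of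
towers that starts at the tower of `c` and stays strictly above the tower with base two. -/
def Desc (c : ℂ) : Prop :=
  ∀ k : ℕ, Transcendental ℚ (nxt^[k] c) ∧ EL 2 ⊂ EL (nxt^[k] c) ∧
    EL (nxt^[k + 1] c) ⊂ EL (nxt^[k] c)

end Pool.Agent.MP_bdc901_nt
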