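import Mathlib
import Pool.Agent.MP_bdc901_nt.Defs

/-! The Schanuel inequality up to a bounded defect. -/

namespace Pool.Agent.MP_bdc901_nt

/-- The map `t ↦ exp (2 π i t)`. -/
noncomputable def ex (t : ℂ) : ℂ := Complex.exp (2 * Real.pi * Complex.I * t)

/-- The Schanuel inequality for `ex` up to a bounded defect `N`, over the rational vector space `A`
and for tuples from `S`: if `n + N` numbers `z i` of `S` are linearly independent over the
rationals modulo `A`, then `n` of the numbers `z i`, `ex (z i)` are algebraically independent over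
the field generated by `A` and `ex A`. -/
def BoundedDefect (A : Submodule ℚ ℂ) (S : Set ℂ) : Prop :=
  ∃ N : ℕ, ∀ (n : ℕ) (z : Fin (n + N) → ℂ), (∀ i, z i ∈ S) →
    (∀ q : Fin (n + N) → ℚ, ∑ i, q i • z i ∈ A → q = 0) →
    ∃ f : Fin n → Fin (n + N) ⊕ Fin (n + N),
      AlgebraicIndependent (Subfield.closure ((A : Set ℂ) ∪ ex '' A))
        fun i => Sum.elim z (fun j => ex (z j)) (f i)

end Pool.Agent.MP_bdc901_nt
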