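import Mathlib
import Pool.Agent.MP_bdc901_nt.Defs
import Pool.Agent.MP_0e4269_lc.z.Base2

/-! Towers as closures for the exponential function with kernel `ℤ`. -/

open Set Pool.Agent.MP_0e4269_lc.Z

namespace Pool.Agent.MP_bdc901_nt

noncomputable def lam : ℂ := 2 * Real.pi * Complex.I

noncomputable def E (x : ℂ) : ℂ := Complex.exp (lam * x)

theorem lam_ne : lam ≠ 0 := Complex.two_pi_I_ne_zero

theorem E_add (x y : ℂ) : E (x + y) = E x * E y := by simp [E, mul_add, Complex.exp_add]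

theorem E_zero : E 0 = 1 := by simp [E]

theorem E_one : E 1 = 1 := by simp [E, lam]

theorem E_ne (x : ℂ) : E x ≠ 0 := Complex.exp_ne_zero _

theorem E_nat (n : ℕ) (x : ℂ) : E (n * x) = E x ^ n := by
  rw [E, E, ← Complex.exp_nat_mul]; congr 1; ring

theorem E_int (n : ℤ) (x : ℂ) : E (n * x) = E x ^ n := by
  rw [E, E, ← Complex.exp_int_mul]; congr 1; ring

theorem E_rat (q : ℚ) (x : ℂ) : E (q • x) ^ q.den = E x ^ q.num := by
  rw [← E_nat, ← E_int, Rat.smul_def, ← mul_assoc]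
  congr 2
  rw [mul_comm]; exact_mod_cast Rat.mul_den_eq_num q

theorem nxt_eq (t : ℂ) : nxt t = t + E t := rfl

/-- Closed under algebraic operations, `E` and its inverse. -/
def Closed (F : Subfield ℂ) : Prop := ac (F : Set ℂ) = F ∧ ∀ x, x ∈ F ↔ E x ∈ F

noncomputable def hull (B : Set ℂ) : Subfield ℂ := sInf {F | Closed F ∧ B ⊆ F}

theorem mem_hull {B : Set ℂ} {y : ℂ} : y ∈ hull B ↔ ∀ F, Closed F → B ⊆ F → y ∈ F := by
  simp [hull, Subfield.mem_sInf]

theorem subset_hull (B : Set ℂ) : B ⊆ hull B := fun _ h => mem_hull.2 fun _ _ h' => h' h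

theorem hull_le {B : Set ℂ} {F : Subfield ℂ} (h : Closed F) (hB : B ⊆ F) : hull B ≤ F :=
  fun _ hy => mem_hull.1 hy F h hB

theorem hull_closed (B : Set ℂ) : Closed (hull B) :=
  ⟨le_antisymm (fun _ hy => mem_hull.2 fun _ h hB => ac_le_of_closed h.1 (hull_le h hB) hy)
    (le_ac _), fun x => by
      simp only [mem_hull]
      exact forall₃_congr fun F h _ => h.2 x⟩

theorem exists_of_finite {ι : Type} [Nonempty ι] {K : ι → Subfield ℂ} (hd : Directed (· ≤ ·) K)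
    {T : Set ℂ} (hT : T.Finite) (h : T ⊆ (⨆ i, K i : Subfield ℂ)) : ∃ i, T ⊆ K i := by
  induction T, hT using Set.Finite.induction_on with
  | empty => exact ⟨Classical.arbitrary _, empty_subset _⟩
  | insert _ _ ih =>
    rw [insert_subset_iff] at h
    obtain ⟨i, hi⟩ := ih h.2
    obtain ⟨j, hj⟩ := (Subfield.mem_iSup_of_directed hd).1 h.1
    obtain ⟨k, h1, h2⟩ := hd i j
    exact ⟨k, insert_subset (h2 hj) (hi.trans h1)⟩

theorem ac_iSup {ι : Type} [Nonempty ι] {K : ι → Subfield ℂ} (hd : Directed (· ≤ ·) K)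
    (hK : ∀ i, ac (K i : Set ℂ) = K i) : ac ((⨆ i, K i : Subfield ℂ) : Set ℂ) = ⨆ i, K i := by
  refine le_antisymm (fun y hy => ?_) (le_ac _)
  obtain ⟨T, h1, h2, h3⟩ := ac_finite hy
  obtain ⟨i, hi⟩ := exists_of_finite hd h2 h1
  exact le_iSup K i (ac_le_of_closed (hK i) hi h3)

theorem acl_eq (S : Set ℂ) : acl S = ac S := by
  rw [← ac_closure]; exact Set.ext fun _ => mem_ac_iff_alg.symm

theorem base_iff {b : ℂ} (h0 : b ≠ 0) (h1 : b ≠ 1) {F : Subfield ℂ} :
    (∀ x, x ∈ F ↔ bpow b x ∈ F) ↔ (∀ x, x ∈ F ↔ E x ∈ F) ∧ b ∈ F := by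
  have hb : Complex.log b ≠ 0 := fun h => h1 (by rw [← Complex.exp_log h0, h, Complex.exp_zero])
  have hl := lam_ne
  have key : ∀ μ : ℂ, μ ∈ F → μ ≠ 0 → ∀ x, x ∈ F ↔ μ * x ∈ F := fun μ hμ h x =>
    ⟨fun hx => mul_mem hμ hx, fun hx => by
      have := mul_mem (inv_mem hμ) hx
      rwa [inv_mul_cancel_left₀ h] at this⟩
  constructor
  · intro h
    have e : ∀ x, bpow b (lam / Complex.log b * x) = E x := fun x => by
      rw [bpow, E]; congr 1; field_simp
    have hμ : lam / Complex.log b ∈ F := by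
      rw [h, ← mul_one (lam / Complex.log b), e, E_one]; exact one_mem _
    refine ⟨fun x => by rw [key _ hμ (div_ne_zero hl hb), h, e], ?_⟩
    have := (h 1).1 (one_mem _)
    rwa [bpow, one_mul, Complex.exp_log h0] at this
  · rintro ⟨h, hb'⟩ x
    have e : ∀ x, E (Complex.log b / lam * x) = bpow b x := fun x => by
      rw [bpow, E]; congr 1; field_simp
    have hμ : Complex.log b / lam ∈ F := by
      rw [h, ← mul_one (Complex.log b / lam), e, bpow, one_mul, Complex.exp_log h0]; exact hb'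
    rw [key _ hμ (div_ne_zero hb hl), h, e]

theorem EL_eq {b : ℂ} (h0 : b ≠ 0) (h1 : b ≠ 1) : EL b = hull {b} := by
  apply Subset.antisymm
  · have h := (base_iff h0 h1).2 ⟨(hull_closed {b}).2, subset_hull _ rfl⟩
    refine iUnion_subset fun n => ?_
    induction n with
    | zero => rintro _ ⟨q, rfl⟩; simp
    | succ n ih =>
      rw [ELn, acl_eq]
      refine ac_le_of_closed (hull_closed _).1 (union_subset ih (union_subset ?_ ?_))
      · rintro _ ⟨x, hx, rfl⟩; exact (h x).1 (ih hx)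
      · exact fun x hx => (h x).2 (ih hx)
  · let K : ℕ → Subfield ℂ := fun n => ac (ELn b n ∪ (bpow b '' ELn b n ∪ bpow b ⁻¹' ELn b n))
    have e : ∀ n, ELn b (n + 1) = K n := fun n => acl_eq _
    have hd : Directed (· ≤ ·) K := (monotone_nat_of_le_succ (f := K) fun n y hy =>
      subset_ac (U := ℂ) (ELn b (n + 1) ∪ _) (Or.inl (by rw [e]; exact hy))).directed_le
    have h : ∀ x, x ∈ ⨆ n, K n ↔ bpow b x ∈ ⨆ n, K n := fun x => by
      simp only [Subfield.mem_iSup_of_directed hd]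
      exact ⟨fun ⟨n, hn⟩ => ⟨n + 1, subset_ac _ (Or.inr (Or.inl ⟨x, by rw [e]; exact hn, rfl⟩))⟩,
        fun ⟨n, hn⟩ => ⟨n + 1, subset_ac _ (Or.inr (Or.inr (by rw [e]; exact hn)))⟩⟩
    have h' := (base_iff h0 h1).1 h
    intro y hy
    obtain ⟨n, hn⟩ := (Subfield.mem_iSup_of_directed hd).1
      (hull_le ⟨ac_iSup hd fun n => ac_ac _, h'.1⟩ (singleton_subset_iff.2 h'.2) hy)
    exact mem_iUnion.2 ⟨n + 1, by rw [e]; exact hn⟩

/-- The criterion for a descending chain. -/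
theorem desc_of {c : ℂ} (h : ∀ k, nxt^[k] c ∉ hull ∅ ∧ nxt^[k] c ∉ hull {nxt (nxt^[k] c)}) :
    Desc c := by
  have h0 : ∀ k, nxt^[k] c ≠ 0 := fun k e => (h k).1 (e ▸ zero_mem _)
  have h1 : ∀ k, nxt^[k] c ≠ 1 := fun k e => (h k).1 (e ▸ one_mem _)
  intro k
  refine ⟨fun ha => (h k).1 ?_, ?_, ?_⟩
  · refine (hull_closed ∅).1.le (mem_ac_iff_alg.2 ?_)
    exact ha.extendScalars (algebraMap ℚ (hull ∅)).injective
  · rw [EL_eq (h0 k) (h1 k), EL_eq two_ne_zero (by norm_num)]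
    have e : ∀ B, hull {2} ≤ hull B := fun B =>
      hull_le (hull_closed _) (singleton_subset_iff.2 (natCast_mem (hull B) 2))
    exact ⟨e _, fun h' => (h k).1 (e ∅ (h' (subset_hull _ rfl)))⟩
  · rw [EL_eq (h0 k) (h1 k), EL_eq (h0 _) (h1 _), Function.iterate_succ_apply']
    have m : nxt^[k] c ∈ hull {nxt^[k] c} := subset_hull _ rfl
    exact ⟨hull_le (hull_closed _) (singleton_subset_iff.2
      (add_mem m (((hull_closed _).2 _).1 m))), fun h' => (h k).2 (h' m)⟩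

/-! ### Finite towers -/

/-- The field of a tower. -/
noncomputable def K (B s : Set ℂ) : Subfield ℂ := ac (B ∪ (s ∪ E '' s))

theorem K_mono {B B' s s' : Set ℂ} (h : B ⊆ B') (h' : s ⊆ s') : K B s ≤ K B' s' :=
  ac_mono (union_subset_union h (union_subset_union h' (image_mono h')))

theorem K_ac (B s : Set ℂ) : ac (K B s : Set ℂ) = K B s := ac_ac _

theorem K_base {B s : Set ℂ} {y : ℂ} (h : y ∈ B) : y ∈ K B s := subset_ac _ (Or.inl h)

theorem K_mem {B s : Set ℂ} {y : ℂ} (h : y ∈ s) : y ∈ K B s := subset_ac _ (Or.inr (Or.inl h))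

theorem K_exp {B s : Set ℂ} {y : ℂ} (h : y ∈ s) : E y ∈ K B s :=
  subset_ac _ (Or.inr (Or.inr ⟨y, h, rfl⟩))

theorem K_le {B s : Set ℂ} {F : Subfield ℂ} (hF : ac (F : Set ℂ) = F) (h : B ⊆ F)
    (h' : ∀ y ∈ s, y ∈ F ∧ E y ∈ F) : K B s ≤ F :=
  ac_le_of_closed hF (union_subset h (union_subset (fun y hy => (h' y hy).1) (by
    rintro _ ⟨y, hy, rfl⟩; exact (h' y hy).2)))

inductive Tw (B : Set ℂ) : Set ℂ → Prop
  | nil : Tw B ∅
  | cons {s : Set ℂ} {y : ℂ} : Tw B s → (y ∈ K B s ∨ E y ∈ K B s) → Tw B (insert y s)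

theorem Tw.finite {B s : Set ℂ} (h : Tw B s) : s.Finite := by
  induction h with
  | nil => exact finite_empty
  | cons _ _ ih => exact ih.insert _

theorem Tw.union {B s s' : Set ℂ} (h : Tw B s) (h' : Tw B s') : Tw B (s ∪ s') := by
  induction h' with
  | nil => simpa using h
  | cons _ hy ih =>
    rw [union_insert]
    exact ih.cons (hy.imp (fun h => K_mono Subset.rfl subset_union_right h)
      fun h => K_mono Subset.rfl subset_union_right h)

theorem Tw.subset {B s : Set ℂ} (h : Tw B s) {F : Subfield ℂ} (hF : Closed F) (hB : B ⊆ F) :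
    s ⊆ F := by
  induction h with
  | nil => exact empty_subset _
  | cons _ hy ih =>
    have := K_le hF.1 hB fun y hy => ⟨ih hy, (hF.2 y).1 (ih hy)⟩
    exact insert_subset (hy.elim (fun h => this h) fun h => (hF.2 _).2 (this h)) ih

theorem exists_tw {B T : Set ℂ} (hT : T.Finite) (h : T ⊆ hull B) : ∃ s, Tw B s ∧ T ⊆ K B s := by
  have : Nonempty {s // Tw B s} := ⟨⟨∅, .nil⟩⟩
  have hd : Directed (· ≤ ·) fun s : {s // Tw B s} => K B s.1 := fun s s' =>
    ⟨⟨_, s.2.union s'.2⟩, K_mono Subset.rfl subset_union_left,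
      K_mono Subset.rfl subset_union_right⟩
  have hc : Closed (⨆ s : {s // Tw B s}, K B s.1) := ⟨ac_iSup hd fun _ => K_ac _ _, fun x => by
    simp only [Subfield.mem_iSup_of_directed hd]
    exact ⟨fun ⟨s, hs⟩ => ⟨⟨_, s.2.cons (Or.inl hs)⟩, K_exp (mem_insert _ _)⟩,
      fun ⟨s, hs⟩ => ⟨⟨_, s.2.cons (Or.inr hs)⟩, K_mem (mem_insert _ _)⟩⟩⟩
  obtain ⟨s, hs⟩ := exists_of_finite hd hT (h.trans (hull_le hc fun y hy =>
    (Subfield.mem_iSup_of_directed hd).2 ⟨⟨∅, .nil⟩, K_base hy⟩))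
  exact ⟨s.1, s.2, hs⟩

/-! ### Independent towers -/

/-- The logarithms of an algebraically closed field. -/
def lg (F : Subfield ℂ) (hF : ac (F : Set ℂ) = F) : Submodule ℚ ℂ where
  carrier := {y | E y ∈ F}
  add_mem' := fun {a b} (ha : E a ∈ F) (hb : E b ∈ F) => show E (a + b) ∈ F by
    rw [E_add]; exact mul_mem ha hb
  zero_mem' := show E 0 ∈ F by rw [E_zero]; exact one_mem _
  smul_mem' := fun q x (hx : E x ∈ F) =>
    mem_of_pow hF q.den_nz (by rw [E_rat]; exact zpow_mem hx _)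

/-- The span of a tuple over `A`. -/
noncomputable def sp (A : Submodule ℚ ℂ) {n : ℕ} (x : Fin n → ℂ) : Submodule ℚ ℂ :=
  A ⊔ Submodule.span ℚ (range x)

theorem li_cons {A : Submodule ℚ ℂ} {n : ℕ} {x : Fin n → ℂ} {y : ℂ} (h : LI A x)
    (hy : y ∉ sp A x) : LI A (Fin.cons y x : Fin (n + 1) → ℂ) := by
  intro q hq
  rw [Fin.sum_univ_succ] at hq
  simp only [Fin.cons_zero, Fin.cons_succ] at hq
  have h0 : q 0 = 0 := by
    by_contra h0
    refine hy (((sp A x).smul_mem_iff h0).1 ?_)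
    have h1 : ∑ i, q (Fin.succ i) • x i ∈ sp A x := Submodule.mem_sup_right
      (Submodule.sum_mem _ fun i _ => Submodule.smul_mem _ _ (Submodule.subset_span ⟨i, rfl⟩))
    simpa [sp] using sub_mem (Submodule.mem_sup_left hq : _ ∈ sp A x) h1
  rw [h0, zero_smul, zero_add] at hq
  funext i
  exact Fin.cases h0 (fun i => congrFun (h _ hq) i) i

theorem mem_sp_cons {A : Submodule ℚ ℂ} {n : ℕ} {x : Fin n → ℂ} {y t : ℂ}
    (h : t ∈ sp A (Fin.cons y x : Fin (n + 1) → ℂ)) : ∃ q : ℚ, t - q • y ∈ sp A x := by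
  rw [sp, Fin.range_cons, Submodule.span_insert, sup_left_comm] at h
  obtain ⟨a, ha, b, hb, rfl⟩ := Submodule.mem_sup.1 h
  obtain ⟨q, rfl⟩ := Submodule.mem_span_singleton.1 ha
  exact ⟨q, by simpa [sp] using hb⟩

/-- A base: a set of constants, a space of exponents and the subspace of constant exponents. -/
structure Base where
  C : Set ℂ
  A : Submodule ℚ ℂ
  X : Submodule ℚ ℂ
  mem : ∀ a ∈ A, a ∈ ac C ∧ E a ∈ ac C

variable {β : Base} {B : Set ℂ}

theorem sp_mem {n : ℕ} {x : Fin n → ℂ} {y : ℂ} (h : y ∈ sp β.A x) :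
    y ∈ K (β.C ∪ B) (range x) ∧ E y ∈ K (β.C ∪ B) (range x) := by
  have h1 : ac β.C ≤ K (β.C ∪ B) (range x) := ac_mono fun _ h => Or.inl (Or.inl h)
  have : sp β.A x ≤ sub (K (β.C ∪ B) (range x)) ⊓ lg _ (K_ac (β.C ∪ B) (range x)) :=
    sup_le (fun a ha => ⟨mem_sub.2 (h1 (β.mem a ha).1), h1 (β.mem a ha).2⟩)
      (Submodule.span_le.2 fun a ha => ⟨mem_sub.2 (K_mem ha), K_exp ha⟩)
  exact ⟨mem_sub.1 (this h).1, (this h).2⟩

theorem step_mem {n : ℕ} {x : Fin n → ℂ} {y t : ℂ} (h : t ∈ sp β.A (Fin.cons y x : Fin (n + 1) → ℂ))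
    (hy : y ∈ K (β.C ∪ B) (range x) ∨ E y ∈ K (β.C ∪ B) (range x)) :
    t ∈ K (β.C ∪ B) (range x) ∨ E t ∈ K (β.C ∪ B) (range x) := by
  obtain ⟨q, hq⟩ := mem_sp_cons h
  have h1 := sp_mem (B := B) hq
  rw [← sub_add_cancel t (q • y)]
  exact hy.imp (fun h => add_mem h1.1 (mem_sub.1 ((sub _).smul_mem q (mem_sub.2 h))))
    fun h => (lg _ (K_ac _ _)).add_mem h1.2 ((lg _ (K_ac _ _)).smul_mem q h)

inductive IT (β : Base) (B : Set ℂ) : (n : ℕ) → (Fin n → ℂ) → Prop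
  | nil : IT β B 0 Fin.elim0
  | cons {n : ℕ} {x : Fin n → ℂ} {y : ℂ} : IT β B n x → y ∈ β.X → y ∉ sp β.A x →
      (y ∈ K (β.C ∪ B) (range x) ∨ E y ∈ K (β.C ∪ B) (range x)) → IT β B (n + 1) (Fin.cons y x)

theorem IT.li {n : ℕ} {x : Fin n → ℂ} (h : IT β B n x) : LI β.A x := by
  induction h with
  | nil => exact fun q _ => Subsingleton.elim _ _
  | cons _ _ hy _ ih => exact li_cons ih hy

theorem IT.mem {n : ℕ} {x : Fin n → ℂ} (h : IT β B n x) : ∀ i, x i ∈ β.X := by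
  induction h with
  | nil => exact fun i => i.elim0
  | cons _ hy _ _ ih => exact fun i => Fin.cases hy ih i

theorem rk_insert_le (C S : Set ℂ) (y : ℂ) : rk C (insert y S) ≤ rk C S + 1 := by
  rw [← union_singleton]
  exact (rk_union_le _ _ _).trans (by gcongr; exact rk_singleton_le _ _)

theorem IT.rk_le {n : ℕ} {x : Fin n → ℂ} (h : IT β B n x) :
    rk (β.C ∪ B) (K (β.C ∪ B) (range x)) ≤ n := by
  induction h with
  | nil => simp [K, rk_eq_zero]
  | @cons n x y _ _ _ hy ih =>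
    have key : ∀ z, (y ∈ ac (β.C ∪ B ∪ insert z (K (β.C ∪ B) (range x))) ∧
        E y ∈ ac (β.C ∪ B ∪ insert z (K (β.C ∪ B) (range x)))) →
        rk (β.C ∪ B) (K (β.C ∪ B) (range (Fin.cons y x : Fin (n + 1) → ℂ))) ≤ (n + 1 : ℕ) := by
      intro z hz
      refine (rk_le_of_subset (K_le (ac_ac _) (fun a ha => subset_ac _ (Or.inl ha)) ?_)).trans
        ((rk_insert_le _ (K (β.C ∪ B) (range x)) z).trans (by push_cast; gcongr))
      rw [Fin.range_cons]
      rintro a (rfl | ha)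
      · exact hz
      · exact ⟨subset_ac _ (Or.inr (Or.inr (K_mem ha))), subset_ac _ (Or.inr (Or.inr (K_exp ha)))⟩
    rcases hy with hy | hy
    · exact key (E y) ⟨subset_ac _ (Or.inr (Or.inr hy)), subset_ac _ (Or.inr (Or.inl rfl))⟩
    · exact key y ⟨subset_ac _ (Or.inr (Or.inl rfl)), subset_ac _ (Or.inr (Or.inr hy))⟩

theorem Tw.refine {s : Set ℂ} (h : Tw B s) (hs : s ⊆ β.X) :
    ∃ n x, IT β B n x ∧ K B s ≤ K (β.C ∪ B) (range x) := by
  induction h with
  | nil => exact ⟨0, _, .nil, K_mono subset_union_right (empty_subset _)⟩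
  | @cons s y _ hy ih =>
    rw [insert_subset_iff] at hs
    obtain ⟨n, x, h1, h2⟩ := ih hs.2
    by_cases h3 : y ∈ sp β.A x
    · refine ⟨n, x, h1, K_le (K_ac _ _) (fun a ha => K_base (Or.inr ha)) ?_⟩
      rintro a (rfl | ha)
      exacts [sp_mem h3, ⟨h2 (K_mem ha), h2 (K_exp ha)⟩]
    · refine ⟨n + 1, _, h1.cons hs.1 h3 (hy.imp (fun h => h2 h) fun h => h2 h),
        K_le (K_ac _ _) (fun a ha => K_base (Or.inr ha)) ?_⟩
      have h4 := h2.trans (K_mono (B' := β.C ∪ B) Subset.rfl (subset_insert y (range x)))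
      rw [Fin.range_cons]
      rintro a (rfl | ha)
      exacts [⟨K_mem (mem_insert _ _), K_exp (mem_insert _ _)⟩, ⟨h4 (K_mem ha), h4 (K_exp ha)⟩]

/-- The Schanuel property of `t` over the base. -/
def SP (β : Base) (t : ℂ) : Prop :=
  ∀ (n : ℕ) (x : Fin n → ℂ), (∀ i, x i ∈ β.X) → LI β.A x →
    ((n + 1 : ℕ) : ℕ∞) ≤ rk β.C (K (β.C ∪ {t}) (range x))

theorem rk_K_le (C : Set ℂ) (b : ℂ) (S : Set ℂ) : rk C S ≤ rk (C ∪ {b}) S + 1 := by
  refine (rk_mono (subset_union_right (s := {b}))).trans ?_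
  rw [rk_union, add_comm]
  gcongr
  exact rk_singleton_le _ _

/-- The main step: `t` is not in a tower over `t + E t`. -/
theorem SP.notMem {t : ℂ} (h : SP β t) (ht : t ∈ β.X) {n : ℕ} {x : Fin n → ℂ}
    (hx : IT β {nxt t} n x) : t ∉ K (β.C ∪ {nxt t}) (range x) := by
  have e : ∀ {F : Subfield ℂ}, nxt t ∈ F → (t ∈ F ∨ E t ∈ F) → t ∈ F ∧ E t ∈ F := fun h1 h2 =>
    h2.elim (fun h => ⟨h, by simpa [nxt_eq] using sub_mem h1 h⟩)
      fun h => ⟨by simpa [nxt_eq] using sub_mem h1 h, h⟩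
  have key : ∀ {n : ℕ} {x : Fin n → ℂ}, IT β {nxt t} n x → t ∉ sp β.A x →
      t ∉ K (β.C ∪ {nxt t}) (range x) := by
    intro n x hx h1 h2
    have h3 := h (n + 1) (Fin.cons t x) (fun i => Fin.cases ht hx.mem i) (li_cons hx.li h1)
    have h4 : K (β.C ∪ {t}) (range (Fin.cons t x : Fin (n + 1) → ℂ)) ≤
        K (β.C ∪ {nxt t}) (range x) := by
      refine K_le (K_ac _ _) (union_subset (fun a ha => K_base (Or.inl ha))
        (singleton_subset_iff.2 h2)) ?_
      rw [Fin.range_cons]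
      rintro a (rfl | ha)
      exacts [e (K_base (Or.inr rfl)) (Or.inl h2), ⟨K_mem ha, K_exp ha⟩]
    have h5 := (h3.trans (rk_mono h4)).trans ((rk_K_le _ (nxt t) _).trans
      (add_le_add_left hx.rk_le 1))
    norm_cast at h5
    omega
  refine key hx ?_
  induction hx with
  | nil =>
    intro h1
    have h2 := h 0 Fin.elim0 (fun i => i.elim0) fun q _ => Subsingleton.elim _ _
    have h3 : t ∈ β.A := by simpa [sp] using h1
    rw [rk_eq_zero.2 (K_le (ac_ac _) (union_subset (subset_ac _)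
      (singleton_subset_iff.2 (β.mem t h3).1)) (by simp))] at h2
    simp at h2
  | cons hx _ _ hy ih =>
    exact fun h1 => key hx ih (e (K_base (Or.inr rfl)) (step_mem h1 hy)).1

end Pool.Agent.MP_bdc901_nt
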