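import Mathlib
import Pool.Agent.MP_bdc901_nt.Core

/-! Consequences of the Schanuel conjecture. -/

open Set Pool.Agent.MP_0e4269_lc.Z

namespace Pool.Agent.MP_bdc901_nt

theorem li_append {A : Submodule ℚ ℂ} {m n : ℕ} {l : Fin m → ℂ} {x : Fin n → ℂ} (h : LI A l)
    (h' : LI (sp A l) x) : LI A (Fin.append l x) := by
  intro q hq
  rw [Fin.sum_univ_add] at hq
  simp only [Fin.append_left, Fin.append_right] at hq
  have h1 : ∑ i, q (Fin.castAdd n i) • l i ∈ sp A l := Submodule.mem_sup_right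
    (Submodule.sum_mem _ fun i _ => Submodule.smul_mem _ _ (Submodule.subset_span ⟨i, rfl⟩))
  have h2 := h' (fun i => q (Fin.natAdd m i))
    (by simpa [sp] using sub_mem (Submodule.mem_sup_left hq : _ ∈ sp A l) h1)
  have h3 : ∀ i, q (Fin.natAdd m i) = 0 := fun i => congrFun h2 i
  simp only [h3, zero_smul, Finset.sum_const_zero, add_zero] at hq
  funext i
  exact Fin.addCases (fun i => congrFun (h _ hq) i) h3 i

theorem li_nil (A : Submodule ℚ ℂ) : LI A (Fin.elim0 : Fin 0 → ℂ) := fun _ _ => Subsingleton.elim _ _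

theorem rk_fin (C : Set ℂ) {Y : Set ℂ} (hY : Y.Finite) {n : ℕ} (h : rk C Y ≤ n) :
    ∃ T ⊆ C, T.Finite ∧ rk T Y ≤ n := by
  obtain ⟨p, hp⟩ := ENat.ne_top_iff_exists.1 (ne_top_of_le_ne_top (ENat.natCast_ne_top n) h)
  obtain ⟨u, h1, h2⟩ := exists_tri hp.le
  have h3 := h2.spans (by rintro _ ⟨i, rfl⟩; exact subset_ac _ (Or.inr (h1 i))) hp.ge
  choose! T h4 h5 h6 using fun y (hy : y ∈ Y) => ac_finite (h3 hy)
  refine ⟨(⋃ y ∈ Y, T y) ∩ C, inter_subset_right, (hY.biUnion h5).inter_of_left _,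
    (rk_le_of_subset fun y hy => ac_mono (fun a ha => ?_) (h6 y hy)).trans
      ((rk_range_le _ u).trans (hp.le.trans h))⟩
  exact (h4 y hy ha).imp_left fun h => ⟨mem_biUnion hy ha, h⟩

/-- The rational numbers as a base. -/
noncomputable def qBase (X : Submodule ℚ ℂ) : Base where
  C := ∅
  A := Submodule.span ℚ {1}
  X := X
  mem := fun _ ha => by
    have : Submodule.span ℚ {1} ≤ sub (ac (∅ : Set ℂ)) ⊓ lg _ (ac_ac (∅ : Set ℂ)) :=
      Submodule.span_le.2 (singleton_subset_iff.2 ⟨mem_sub.2 (one_mem _),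
        show E 1 ∈ ac (∅ : Set ℂ) by rw [E_one]; exact one_mem _⟩)
    exact ⟨mem_sub.1 (this ha).1, (this ha).2⟩

/-- The smallest tower as a base. -/
noncomputable def hBase : Base where
  C := hull ∅
  A := sub (hull ∅)
  X := ⊤
  mem := fun _ ha => ⟨subset_ac _ (mem_sub.1 ha),
    subset_ac _ (((hull_closed ∅).2 _).1 (mem_sub.1 ha))⟩

theorem sp_q (h : Schanuel) : SP (qBase ⊤) lam := by
  intro n x _ li
  obtain ⟨f, hf⟩ := h (n + 1) (fun i => lam * (Fin.cons 1 x : Fin (n + 1) → ℂ) i)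
    (Fintype.linearIndependent_iff.2 fun g hg => by
      simp only [← mul_smul_comm, ← Finset.mul_sum] at hg
      have h1 := (mul_eq_zero.1 hg).resolve_left lam_ne
      rw [Fin.sum_univ_succ] at h1
      simp only [Fin.cons_zero, Fin.cons_succ] at h1
      have h2 := li (fun i => g i.succ) (by
        rw [eq_neg_of_add_eq_zero_right h1]
        exact neg_mem (Submodule.smul_mem _ _ (Submodule.subset_span rfl)))
      have h3 : ∀ i, g (Fin.succ i) = 0 := fun i => congrFun h2 i
      exact Fin.cases (by simpa [h3] using h1) h3)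
  have h1 : (AlgebraicIndependent.matroid ℚ ℂ).Indep _ := hf.to_subtype_range
  change _ ≤ rk ∅ _
  rw [rk, Matroid.contract_empty]
  refine le_trans (by simpa using hf.injective.encard_range) (h1.encard_le_eRk_of_subset ?_)
  rintro _ ⟨i, rfl⟩
  have hl : lam ∈ K ((qBase ⊤).C ∪ {lam}) (range x) := K_base (Or.inr rfl)
  beta_reduce
  generalize f i = j0
  rcases j0 with j | j <;> refine Fin.cases ?_ (fun j => ?_) j
  · simpa using hl
  · exact mul_mem hl (K_mem ⟨j, rfl⟩)
  · change E 1 ∈ _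
    rw [E_one]; exact one_mem _
  · exact K_exp ⟨j, rfl⟩

theorem K_append {B : Set ℂ} {m n : ℕ} {l : Fin m → ℂ} {x : Fin n → ℂ} {S : Set ℂ}
    (hB : B ⊆ S) (h1 : range l ∪ E '' range l ⊆ S) (h2 : range x ∪ E '' range x ⊆ S) (C : Set ℂ) :
    rk C (K (C ∪ B) (range (Fin.append l x))) ≤ rk C S := by
  refine rk_le_of_subset (K_le (ac_ac _) ((union_subset_union_right _ hB).trans (subset_ac _)) ?_)
  rw [range_append]
  rintro a (ha | ha)
  · exact ⟨subset_ac _ (Or.inr (h1 (Or.inl ha))), subset_ac _ (Or.inr (h1 (Or.inr ⟨a, ha, rfl⟩)))⟩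
  · exact ⟨subset_ac _ (Or.inr (h2 (Or.inl ha))), subset_ac _ (Or.inr (h2 (Or.inr ⟨a, ha, rfl⟩)))⟩

theorem gen_subset (B s : Set ℂ) : s ∪ E '' s ⊆ K B s := subset_union_right.trans (subset_ac _)

theorem sp_h (h : Schanuel) : SP hBase lam := by
  intro n x _ li
  refine succ_le_of_not_le fun h1 => ?_
  obtain ⟨T, t1, t2, t3⟩ := rk_fin (hull ∅) (Y := {lam} ∪ (range x ∪ E '' range x)) (toFinite _)
    ((rk_mono (union_subset (singleton_subset_iff.2 (K_base (Or.inr rfl))) (gen_subset _ _))).trans h1)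
  obtain ⟨s, s1, s2⟩ := exists_tw t2 t1
  obtain ⟨m, l, l1, l2⟩ := s1.refine (β := qBase (sub (hull ∅)))
    fun a ha => mem_sub.2 (s1.subset (hull_closed ∅) (empty_subset _) ha)
  have h2 := sp_q h (m + n) (Fin.append l x) (fun _ => trivial) (li_append l1.li (li.mono
    (sup_le (Submodule.span_le.2 (singleton_subset_iff.2 (mem_sub.2 (one_mem _))))
      (Submodule.span_le.2 (range_subset_iff.2 l1.mem)))))
  have h3 := l1.rk_le
  change rk (∅ ∪ ∅) (K (∅ ∪ ∅) (range l) : Set ℂ) ≤ _ at h3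
  change K ∅ s ≤ K (∅ ∪ ∅) (range l) at l2
  rw [union_empty] at h3 l2
  have h4 := h2.trans (K_append (S := K ∅ (range l) ∪ ({lam} ∪ (range x ∪ E '' range x)))
    (fun a ha => Or.inr (Or.inl ha)) (fun a ha => Or.inl (gen_subset _ _ ha))
    (fun a ha => Or.inr (Or.inr ha)) ∅)
  rw [rk_union] at h4
  have h5 := h4.trans (add_le_add h3 ((rk_anti fun a ha => Or.inr (l2 (s2 ha))).trans t3))
  norm_cast at h5
  omega

/-- The Schanuel property passes to the elements of the tower. -/
theorem SP.transfer {s t : ℂ} (hs : SP hBase s) (h1 : t ∈ hull {s}) (h2 : t ∉ hull ∅) :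
    SP hBase t := by
  intro n x _ li
  refine succ_le_of_not_le fun h3 => ?_
  have free : ∀ {m : ℕ} {y : Fin m → ℂ}, IT hBase {s} m y → LI (sp hBase.A x) y →
      ∀ z ∈ K (hBase.C ∪ {s}) (range y), z ∈ K (hBase.C ∪ {t}) (range x) → z ∈ hull ∅ := by
    intro m y hy ly z z1 z2
    by_contra z3
    have h4 := (hs (n + m) _ (fun _ => trivial) (li_append li ly)).trans (K_append
      (S := K (hBase.C ∪ {t}) (range x) ∪ K (hBase.C ∪ {s}) (range y))
      (fun a ha => Or.inr (K_base (Or.inr ha))) (fun a ha => Or.inl (gen_subset _ _ ha))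
      (fun a ha => Or.inr (gen_subset _ _ ha)) _)
    have h5 := (rk_K_le _ s _).trans (add_le_add_left hy.rk_le 1)
    rw [← union_eq_self_of_subset_left (singleton_subset_iff.2 z1), rk_union,
      rk_singleton (B := hBase.C) fun h => z3 ((hull_closed ∅).1.le h), add_comm,
      ENat.add_le_add_iff_right (by simp)] at h5
    rw [rk_union] at h4
    have h6 := h4.trans (add_le_add h3 ((rk_anti
      (union_subset_union_right _ (singleton_subset_iff.2 z2))).trans h5))
    norm_cast at h6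
    omega
  have ind : ∀ {m : ℕ} {y : Fin m → ℂ}, IT hBase {s} m y → LI (sp hBase.A x) y := by
    intro m y hy
    induction hy with
    | nil => exact li_nil _
    | @cons m y w hy _ hw hk ih =>
      refine li_cons ih fun h => hw ?_
      obtain ⟨z, hz, r, hr, rfl⟩ := Submodule.mem_sup.1 h
      have r1 := sp_mem (β := hBase) (B := {s}) (Submodule.mem_sup_right hr)
      have z1 := sp_mem (β := hBase) (B := {t}) hz
      refine add_mem (Submodule.mem_sup_left (mem_sub.2 ?_)) (Submodule.mem_sup_right hr)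
      rcases hk with hk | hk
      · exact free hy ih z (by simpa using sub_mem hk r1.1) z1.1
      · refine ((hull_closed ∅).2 z).2 (free hy ih _ ?_ z1.2)
        have := (lg _ (K_ac (hBase.C ∪ {s}) (range y))).sub_mem (x := z + r) (y := r) hk r1.2
        rwa [add_sub_cancel_right] at this
  obtain ⟨u, u1, u2⟩ := exists_tw (finite_singleton t) (singleton_subset_iff.2 h1)
  obtain ⟨m, y, y1, y2⟩ := u1.refine (β := hBase) fun _ _ => trivial
  exact h2 (free y1 (ind y1) t (y2 (u2 rfl)) (K_base (Or.inr rfl)))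

theorem desc_of_sp {s c : ℂ} (hs : SP hBase s) (h1 : c ∈ hull {s}) (h2 : c ∉ hull ∅) : Desc c := by
  have key : ∀ k, nxt^[k] c ∈ hull {s} ∧ nxt^[k] c ∉ hull ∅ := by
    intro k
    induction k with
    | zero => exact ⟨h1, h2⟩
    | succ k ih =>
      rw [Function.iterate_succ_apply']
      generalize nxt^[k] c = t at ih
      refine ⟨add_mem ih.1 (((hull_closed _).2 _).1 ih.1), fun h => ?_⟩
      have h3 := hs.transfer ih.1 ih.2 1 (Fin.cons t Fin.elim0) (fun _ => trivial)
        (li_cons (li_nil _) fun h => ih.2 (mem_sub.1 (show t ∈ hBase.A by simpa [sp] using h)))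
      have m : t ∈ ac (hBase.C ∪ {t}) := subset_ac _ (Or.inr rfl)
      have h4 := h3.trans ((rk_le_of_subset (K_le (ac_ac _) (subset_ac _) (by
        have := sub_mem (subset_ac (hBase.C ∪ {t}) (Or.inl h) : nxt t ∈ ac _) m
        rw [nxt_eq, add_sub_cancel_left] at this
        rintro _ ⟨i, rfl⟩
        exact Fin.cases ⟨m, this⟩ (fun i => i.elim0) i))).trans (rk_singleton_le _ t))
      norm_cast at h4
  refine desc_of fun k => ⟨(key k).2, fun h => ?_⟩
  obtain ⟨u, u1, u2⟩ := exists_tw (finite_singleton _) (singleton_subset_iff.2 h)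
  obtain ⟨m, y, y1, y2⟩ := u1.refine (β := hBase) fun _ _ => trivial
  exact (hs.transfer (key k).1 (key k).2).notMem trivial y1 (y2 (u2 rfl))

theorem desc_of_schanuel (h : Schanuel) :
    Desc (Complex.exp 1) ∧ ∀ c ∈ EL (Complex.exp 1), c ∉ EL 2 → Desc c := by
  have e : E lam⁻¹ = Complex.exp 1 := by rw [E, mul_inv_cancel₀ lam_ne]
  have h1 : Complex.exp 1 ∈ hull {lam} :=
    e ▸ ((hull_closed _).2 _).1 (inv_mem (subset_hull _ rfl : lam ∈ hull {lam}))
  have h2 : Complex.exp 1 ∉ hull ∅ := fun h2 => by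
    have h3 : lam ∈ hull ∅ := inv_mem_iff.1 (((hull_closed ∅).2 _).2 (e ▸ h2))
    have h4 := sp_h h 0 Fin.elim0 (fun _ => trivial) (li_nil _)
    rw [(rk_eq_zero (B := hBase.C)).2 (K_le (ac_ac _) (union_subset (subset_ac _)
      (singleton_subset_iff.2 (subset_ac _ h3))) (by simp))] at h4
    simp at h4
  refine ⟨desc_of_sp (sp_h h) h1 h2, fun c c1 c2 => desc_of_sp (sp_h h) ?_ fun c3 => c2 ?_⟩
  · rw [EL_eq (Complex.exp_ne_zero 1) fun e => h2 (by rw [e]; exact one_mem _)] at c1
    exact hull_le (hull_closed _) (singleton_subset_iff.2 h1) c1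
  · rw [EL_eq two_ne_zero (by norm_num)]
    exact hull_le (hull_closed _) (empty_subset _) c3

end Pool.Agent.MP_bdc901_nt

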