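import Mathlib
import Pool.Agent.MP_bdc901_nt.Sch
import Pool.Agent.MP_bdc901_nt.Defs2

/-! Strong subspaces and free towers. -/

open Set Pool.Agent.MP_0e4269_lc.Z

namespace Pool.Agent.MP_bdc901_nt

/-- The field of a space of exponents. -/
noncomputable def Fd (A : Submodule ℚ ℂ) : Subfield ℂ := K ∅ (A : Set ℂ)

/-- A tuple together with its exponentials. -/
def gen {n : ℕ} (x : Fin n → ℂ) : Set ℂ := range x ∪ E '' range x

/-- `A` is strong for tuples from `X`. -/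
def St (X : Set ℂ) (A : Submodule ℚ ℂ) : Prop :=
  ∀ (n : ℕ) (x : Fin n → ℂ), (∀ i, x i ∈ X) → LI A x → (n : ℕ∞) ≤ rk (Fd A : Set ℂ) (gen x)

variable {X S s : Set ℂ} {A A' : Submodule ℚ ℂ} {y : ℂ}

theorem Fd_ac (A : Submodule ℚ ℂ) : ac (Fd A : Set ℂ) = Fd A := K_ac _ _

theorem Fd_mem (h : y ∈ A) : y ∈ Fd A ∧ E y ∈ Fd A := ⟨K_mem h, K_exp h⟩

theorem Fd_mono (h : A ≤ A') : Fd A ≤ Fd A' := K_mono Subset.rfl h

theorem span_mem {F : Subfield ℂ} (hF : ac (F : Set ℂ) = F) (h : ∀ a ∈ s, a ∈ F ∧ E a ∈ F)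
    (hy : y ∈ Submodule.span ℚ s) : y ∈ F ∧ E y ∈ F := by
  have : Submodule.span ℚ s ≤ sub F ⊓ lg F hF :=
    Submodule.span_le.2 fun a ha => ⟨mem_sub.2 (h a ha).1, (h a ha).2⟩
  exact ⟨mem_sub.1 (this hy).1, (this hy).2⟩

theorem Fd_sup_le {F : Subfield ℂ} (hF : ac (F : Set ℂ) = F) (hA : Fd A ≤ F)
    (h : ∀ a ∈ s, a ∈ F ∧ E a ∈ F) : Fd (A ⊔ Submodule.span ℚ s) ≤ F := by
  refine K_le hF (empty_subset _) fun y hy => ?_
  obtain ⟨a, ha, b, hb, rfl⟩ := Submodule.mem_sup.1 hy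
  have h1 := span_mem hF h hb
  rw [E_add]
  exact ⟨add_mem (hA (Fd_mem ha).1) h1.1, mul_mem (hA (Fd_mem ha).2) h1.2⟩

theorem K_le_Fd (hS : S ⊆ Fd A) : K S s ≤ Fd (A ⊔ Submodule.span ℚ s) :=
  K_le (Fd_ac _) (hS.trans (Fd_mono le_sup_left)) fun _ hy =>
    Fd_mem (Submodule.mem_sup_right (Submodule.subset_span hy))

theorem rk_append (A : Submodule ℚ ℂ) {m n : ℕ} (l : Fin m → ℂ) (x : Fin n → ℂ) :
    rk (Fd A : Set ℂ) (gen (Fin.append l x)) ≤
      rk (Fd A : Set ℂ) (gen l) + rk (Fd (sp A l) : Set ℂ) (gen x) := by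
  have e : gen (Fin.append l x) = gen l ∪ gen x := by
    rw [gen, range_append, image_union, gen, gen, union_union_union_comm]
  rw [e, rk_union]
  refine add_le_add le_rfl (rk_anti' (Fd_sup_le (ac_ac _) (fun a ha => subset_ac _ (Or.inl ha))
    fun a ha => ⟨subset_ac _ (Or.inr (Or.inl ha)), subset_ac _ (Or.inr (Or.inr ⟨a, ha, rfl⟩))⟩))

theorem mem_append {m n : ℕ} {l : Fin m → ℂ} {x : Fin n → ℂ} (hl : ∀ i, l i ∈ X)
    (hx : ∀ i, x i ∈ X) (i : Fin (m + n)) : Fin.append l x i ∈ X := by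
  refine Fin.addCases (fun i => ?_) (fun i => ?_) i
  · simpa using hl i
  · simpa using hx i

theorem St.ext (h : St X A) {m : ℕ} {l : Fin m → ℂ} (hl : ∀ i, l i ∈ X) (li : LI A l)
    (hr : rk (Fd A : Set ℂ) (gen l) ≤ m) : St X (sp A l) := by
  intro n x hx lx
  have h1 := (h _ _ (mem_append hl hx) (li_append li lx)).trans
    ((rk_append A l x).trans (add_le_add hr le_rfl))
  push_cast at h1
  exact (ENat.add_le_add_iff_left (by simp)).1 h1

theorem li_one (hy : y ∉ A) : LI A (Fin.cons y Fin.elim0 : Fin 1 → ℂ) :=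
  li_cons (li_nil _) (by simpa [sp] using hy)

theorem range_one (y : ℂ) : range (Fin.cons y Fin.elim0 : Fin 1 → ℂ) = {y} := by
  rw [Fin.range_cons]; simp

theorem St.new (h : St X A) (hX : y ∈ X) (hy : y ∉ A) : ¬ (y ∈ Fd A ∧ E y ∈ Fd A) := by
  intro h1
  have h2 := h 1 _ (fun i => Fin.cases hX (fun i => i.elim0) i) (li_one hy)
  rw [rk_eq_zero.2 (by
    rw [gen, range_one, image_singleton, Fd_ac]
    exact union_subset (singleton_subset_iff.2 h1.1) (singleton_subset_iff.2 h1.2))] at h2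
  simp at h2

theorem St.step (h : St X A) (hX : y ∈ X) (hy : y ∈ Fd A ∨ E y ∈ Fd A) :
    St X (A ⊔ Submodule.span ℚ {y}) := by
  by_cases h1 : y ∈ A
  · rwa [sup_eq_left.2 ((Submodule.span_singleton_le_iff_mem _ _).2 h1)]
  have h2 := h.ext (fun i => Fin.cases hX (fun i => i.elim0) i) (li_one h1) (by
    rw [gen, range_one, image_singleton]
    rcases hy with hy | hy
    · exact (rk_le_of_subset (Y := {E y}) (union_subset (singleton_subset_iff.2
        (subset_ac _ (Or.inl hy))) fun a ha => subset_ac _ (Or.inr ha))).trans (rk_singleton_le _ _)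
    · exact (rk_le_of_subset (Y := {y}) (union_subset (fun a ha => subset_ac _ (Or.inr ha))
        (singleton_subset_iff.2 (subset_ac _ (Or.inl hy))))).trans (rk_singleton_le _ _))
  rwa [sp, range_one] at h2

theorem St.tw (h : St X A) (hS : S ⊆ Fd A) (hs : Tw S s) (hX : s ⊆ X) :
    St X (A ⊔ Submodule.span ℚ s) := by
  induction hs with
  | nil => simpa using h
  | @cons s y _ hy ih =>
    rw [insert_subset_iff] at hX
    rw [Submodule.span_insert, sup_comm (Submodule.span ℚ {y}), ← sup_assoc]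
    exact (ih hX.2).step hX.1 (hy.imp (fun k => K_le_Fd hS k) fun k => K_le_Fd hS k)

theorem gen_finite {n : ℕ} (x : Fin n → ℂ) : (gen x).Finite :=
  (finite_range x).union ((finite_range x).image _)

theorem St.cl (h : St X A) (hS : S ⊆ Fd A) (hX : (hull S : Set ℂ) ⊆ X) :
    St X (A ⊔ sub (hull S)) := by
  intro n x hx lx
  rcases n with _ | r
  · simp
  refine succ_le_of_not_le fun h1 => ?_
  have h0 : Fd (A ⊔ sub (hull S)) ≤ ac ((Fd A : Set ℂ) ∪ hull S) :=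
    Fd_sup_le (s := hull S) (ac_ac _) (fun a ha => subset_ac _ (Or.inl ha)) fun a ha =>
      ⟨subset_ac _ (Or.inr ha), subset_ac _ (Or.inr (((hull_closed S).2 a).1 ha))⟩
  obtain ⟨T, t1, t2, t3⟩ := rk_fin ((Fd A : Set ℂ) ∪ hull S) (gen_finite x)
    ((rk_anti' h0).trans h1)
  obtain ⟨s, s1, s2⟩ := exists_tw (t2.inter_of_left (hull S)) inter_subset_right
  have s3 := s1.subset (hull_closed S) (subset_hull S)
  have h2 := (h.tw hS s1 (s3.trans hX) _ x hx (lx.mono (sup_le_sup_left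
    (Submodule.span_mono s3) _))).trans ((rk_anti (B := T) fun a ha => (t1 ha).elim
      (fun k => Fd_mono le_sup_left k) fun k => K_le_Fd hS (s2 ⟨ha, k⟩)).trans t3)
  norm_cast at h2
  omega

theorem free_inter {H P L : Set ℂ} {m : ℕ} {z : ℂ} (hP : H ⊆ P) (h1 : rk H L ≤ m)
    (h2 : (m : ℕ∞) ≤ rk P L) (z1 : z ∈ ac (H ∪ L)) (z2 : z ∈ P) : z ∈ ac H := by
  by_contra z3
  have h3 : rk H ({z} ∪ L) ≤ m := (rk_le_of_subset (union_subset (singleton_subset_iff.2 z1)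
    fun a ha => subset_ac _ (Or.inr ha))).trans h1
  rw [rk_union, rk_singleton z3] at h3
  have h4 := (add_le_add le_rfl (h2.trans (rk_anti
    (union_subset hP (singleton_subset_iff.2 z2))))).trans h3
  norm_cast at h4
  omega

open Polynomial in
theorem pair {Q : Subfield ℂ} (hQ : ac (Q : Set ℂ) = Q) {a b : ℂ} {q r : ℚ} (h1 : E a + E b ∈ Q)
    (h0 : E a + E b ≠ 0) (h2 : E (q • a + r • b) ∈ Q) (hq : q ≠ 0) : E a ∈ Q ∧ E b ∈ Q := by
  suffices h : E a ∈ Q from ⟨h, by simpa using sub_mem h1 h⟩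
  set t := r / q with ht
  have h3 : E (((t.den : ℚ) / q) • (q • a + r • b)) ∈ Q := (lg Q hQ).smul_mem _ h2
  have e : ((t.den : ℚ) / q) • (q • a + r • b) = t.den * a + t.num * b := by
    have e1 : (t.den : ℚ) / q * r = t.num := by
      rw [← Rat.mul_den_eq_num, ht]; ring
    rw [smul_add, smul_smul, smul_smul, div_mul_cancel₀ _ hq, e1, Rat.smul_def, Rat.smul_def]
    simp
  rw [e, E_add, E_nat, E_int] at h3
  refine hQ.le (mem_ac_iff_alg.2 ⟨X ^ t.den * (C ⟨_, h1⟩ - X) ^ t.num.toNat -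
    C ⟨_, h3⟩ * (C ⟨_, h1⟩ - X) ^ (-t.num).toNat, fun k => ?_, ?_⟩)
  · have k1 := congrArg (fun P => ((eval 0 P : Q) : ℂ)) k
    simp [t.den_nz, E_ne, h0, zpow_ne_zero] at k1
  · have e2 : E b ^ t.num * E b ^ (-t.num).toNat = E b ^ t.num.toNat := by
      rw [← zpow_natCast, ← zpow_natCast, ← zpow_add₀ (E_ne b)]
      congr 1
      omega
    simp only [map_sub, map_mul, map_pow, aeval_X, aeval_C]
    change E a ^ t.den * (E a + E b - E a) ^ _ - E a ^ t.den * E b ^ t.num * (E a + E b - E a) ^ _ = 0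
    rw [add_sub_cancel_left, mul_assoc, e2, sub_self]

/-- The main step: the tower over `G` and `E (w 0) + E (w 1)` is free from the field of `B`. -/
theorem St.free {G : Subfield ℂ} {B : Submodule ℚ ℂ} {w : Fin 2 → ℂ} (h : St X B) (hG : Closed G)
    (hB : (G : Set ℂ) ⊆ B) (w1 : ∀ i, w i ∈ X) (w2 : ∀ i, w i ∈ Fd B) (li : LI B w)
    (hX : (hull (G ∪ {E (w 0) + E (w 1)}) : Set ℂ) ⊆ X) :
    St X (sp B w) ∧ E (w 0) + E (w 1) ∉ Fd B ∧
      ∀ z ∈ hull (G ∪ {E (w 0) + E (w 1)}), z ∈ Fd B → z ∈ G := by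
  set x := E (w 0) + E (w 1) with hx
  have gs : ∀ {Y : Set ℂ}, (∀ i, E (w i) ∈ ac ((Fd B : Set ℂ) ∪ Y)) →
      rk (Fd B : Set ℂ) (gen w) ≤ rk (Fd B : Set ℂ) Y := fun k => rk_le_of_subset (by
    rintro _ (⟨i, rfl⟩ | ⟨_, ⟨i, rfl⟩, rfl⟩)
    exacts [subset_ac _ (Or.inl (w2 i)), k i])
  have h' : St X (sp B w) := h.ext w1 li ((gs (Y := range fun i => E (w i)) fun i =>
    subset_ac _ (Or.inr ⟨i, rfl⟩)).trans (rk_range_le _ _))
  have two : ∀ z, ¬ (E (w 0) ∈ ac ((Fd B : Set ℂ) ∪ {z}) ∧ E (w 1) ∈ ac ((Fd B : Set ℂ) ∪ {z})) := by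
    intro z k
    have := (h 2 w w1 li).trans ((gs (Fin.forall_fin_two.2 k)).trans (rk_singleton_le _ _))
    norm_cast at this
  have x1 : x ∉ Fd B := fun k => by
    have m : E (w 0) ∈ ac ((Fd B : Set ℂ) ∪ {E (w 0)}) := subset_ac _ (Or.inr rfl)
    exact two _ ⟨m, by simpa [hx] using sub_mem (subset_ac _ (Or.inl k) : x ∈ ac _) m⟩
  have GB : (G : Set ℂ) ⊆ Fd B := fun a ha => (Fd_mem (hB ha)).1
  have BB : Fd B ≤ Fd (sp B w) := Fd_mono le_sup_left
  have wB : ∀ i, E (w i) ∈ Fd (sp B w) := fun i =>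
    (Fd_mem (Submodule.mem_sup_right (Submodule.subset_span (mem_range_self i)))).2
  have S1 : (G : Set ℂ) ∪ {x} ⊆ Fd (sp B w) :=
    union_subset (GB.trans BB) (singleton_subset_iff.2 (add_mem (wB 0) (wB 1)))
  have i0 : ∀ z ∈ ac ((G : Set ℂ) ∪ {x}), z ∈ Fd B → z ∈ G := fun z z1 z2 =>
    hG.1.le (free_inter (m := 1) GB (rk_singleton_le _ _)
      (rk_singleton (by rwa [Fd_ac])).ge z1 z2)
  have alg : ∀ β ∈ sp B w, β ∈ ac ((G : Set ℂ) ∪ {x}) ∨ E β ∈ ac ((G : Set ℂ) ∪ {x}) → β ∈ G := by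
    intro β hβ k
    obtain ⟨b, hb, v, hv, rfl⟩ := Submodule.mem_sup.1 hβ
    obtain ⟨q, rfl⟩ := (Submodule.mem_span_range_iff_exists_fun ℚ).1 hv
    rw [Fin.sum_univ_two] at k ⊢
    rcases k with k | k
    · exact i0 _ k (add_mem (Fd_mem hb).1 (add_mem
        (mem_sub.1 ((sub _).smul_mem _ (mem_sub.2 (w2 0))))
        (mem_sub.1 ((sub _).smul_mem _ (mem_sub.2 (w2 1))))))
    · have m : x ∈ ac ((Fd B : Set ℂ) ∪ {x}) := subset_ac _ (Or.inr rfl)
      have x0 : x ≠ 0 := fun e => x1 (e ▸ zero_mem _)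
      have k1 : E (q 0 • w 0 + q 1 • w 1) ∈ ac ((Fd B : Set ℂ) ∪ {x}) := by
        have := (lg _ (ac_ac ((Fd B : Set ℂ) ∪ {x}))).sub_mem (x := b + (q 0 • w 0 + q 1 • w 1))
          (y := b) (ac_mono (union_subset_union_left _ GB) k)
          (subset_ac _ (Or.inl (Fd_mem hb).2) : E b ∈ ac _)
        rwa [add_sub_cancel_left] at this
      have q0 : q 0 = 0 := by_contra fun e => two x (pair (ac_ac _) m x0 k1 e)
      have q1 : q 1 = 0 := by_contra fun e => two x (pair (ac_ac _) (by rwa [add_comm])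
        (by rwa [add_comm]) (by rwa [add_comm]) e).symm
      rw [q0, q1, zero_smul, zero_smul, add_zero, add_zero] at k ⊢
      exact (hG.2 b).2 (i0 _ k (Fd_mem hb).2)
  have key : ∀ {s : Set ℂ}, Tw ((G : Set ℂ) ∪ {x}) s → ∃ m : ℕ,
      rk ((G : Set ℂ) ∪ {x}) (K ((G : Set ℂ) ∪ {x}) s) ≤ m ∧
        (m : ℕ∞) ≤ rk (Fd (sp B w) : Set ℂ) (K ((G : Set ℂ) ∪ {x}) s) := by
    intro s hs
    induction hs with
    | nil => exact ⟨0, (rk_eq_zero.2 (by simp [K])).le, by simp⟩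
    | @cons s y hs hy ih =>
      obtain ⟨m, m1, m2⟩ := ih
      have sX := ((hs.cons hy).subset (hull_closed _) (subset_hull _)).trans hX
      rw [insert_subset_iff] at sX
      have mono : K ((G : Set ℂ) ∪ {x}) s ≤ K ((G : Set ℂ) ∪ {x}) (insert y s) :=
        K_mono Subset.rfl (subset_insert _ _)
      have up : ∀ {F : Subfield ℂ}, ac (F : Set ℂ) = F → K ((G : Set ℂ) ∪ {x}) s ≤ F →
          y ∈ F ∧ E y ∈ F → K ((G : Set ℂ) ∪ {x}) (insert y s) ≤ F := fun hF k1 k2 =>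
        K_le hF (fun a ha => k1 (K_base ha)) (by
          rintro a (rfl | ha)
          exacts [k2, ⟨k1 (K_mem ha), k1 (K_exp ha)⟩])
      by_cases c : y ∈ sp B w ⊔ Submodule.span ℚ s
      · obtain ⟨β, hβ, η, hη, rfl⟩ := Submodule.mem_sup.1 c
        have e1 := span_mem (K_ac ((G : Set ℂ) ∪ {x}) s) (fun a ha => ⟨K_mem ha, K_exp ha⟩) hη
        have e2 : β ∈ G := alg β hβ (hy.imp
          (fun k => free_inter S1 m1 m2 (subset_ac _ (Or.inr
            (by simpa using sub_mem k e1.1))) (Fd_mem hβ).1)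
          fun k => free_inter S1 m1 m2 (subset_ac _ (Or.inr (by
            have := (lg _ (K_ac ((G : Set ℂ) ∪ {x}) s)).sub_mem (x := β + η) (y := η) k e1.2
            rwa [add_sub_cancel_right] at this))) (Fd_mem hβ).2)
        refine ⟨m, (rk_mono (up (K_ac _ _) le_rfl ⟨add_mem (K_base (Or.inl e2)) e1.1, ?_⟩)).trans m1,
          m2.trans (rk_mono mono)⟩
        rw [E_add]
        exact mul_mem (K_base (Or.inl ((hG.2 β).1 e2))) e1.2
      · have n := (h'.tw S1 hs sX.2).new sX.1 c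
        have fin : ∀ z, z ∉ Fd (sp B w ⊔ Submodule.span ℚ s) →
            z ∈ K ((G : Set ℂ) ∪ {x}) (insert y s) →
            (y ∈ ac ((G : Set ℂ) ∪ {x} ∪ insert z (K ((G : Set ℂ) ∪ {x}) s)) ∧
              E y ∈ ac ((G : Set ℂ) ∪ {x} ∪ insert z (K ((G : Set ℂ) ∪ {x}) s))) → ∃ m : ℕ,
            rk ((G : Set ℂ) ∪ {x}) (K ((G : Set ℂ) ∪ {x}) (insert y s)) ≤ m ∧
              (m : ℕ∞) ≤ rk (Fd (sp B w) : Set ℂ) (K ((G : Set ℂ) ∪ {x}) (insert y s)) := by
          intro z z1 z2 z3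
          refine ⟨m + 1, (rk_le_of_subset (up (ac_ac _) (fun a ha =>
            subset_ac _ (Or.inr (Or.inr ha))) z3)).trans ((rk_insert_le _ _ z).trans
              (by push_cast; gcongr)), le_trans ?_ (rk_mono (union_subset mono
                (singleton_subset_iff.2 z2)))⟩
          rw [rk_union, rk_singleton fun k => z1 (ac_le_of_closed (Fd_ac _)
            (union_subset (Fd_mono le_sup_left) (K_le_Fd S1)) k)]
          push_cast
          gcongr
        rcases hy with hy | hy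
        · exact fin (E y) (fun k => n ⟨K_le_Fd S1 hy, k⟩) (K_exp (mem_insert _ _))
            ⟨subset_ac _ (Or.inr (Or.inr hy)), subset_ac _ (Or.inr (Or.inl rfl))⟩
        · exact fin y (fun k => n ⟨k, K_le_Fd S1 hy⟩) (K_mem (mem_insert _ _))
            ⟨subset_ac _ (Or.inr (Or.inl rfl)), subset_ac _ (Or.inr (Or.inr hy))⟩
  refine ⟨h', x1, fun z z1 z2 => ?_⟩
  obtain ⟨s, s1, s2⟩ := exists_tw (finite_singleton z) (singleton_subset_iff.2 z1)
  obtain ⟨m, m1, m2⟩ := key s1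
  exact i0 z (free_inter S1 m1 m2 (subset_ac _ (Or.inr (s2 rfl))) (BB z2)) z2

open Polynomial in
theorem exists_pow {G : Subfield ℂ} (hG : Closed G) {c : ℂ} (hc : c ∉ G) (hs : s.Finite) :
    ∃ k : ℕ, c ^ (k + 1) ∉ sub G ⊔ Submodule.span ℚ s := by
  by_contra! h
  have := (hs.image (sub G).mkQ).to_subtype
  refine not_finite_iff_infinite.2 (inferInstance : Infinite ℕ)
    (LinearIndependent.finite_of_le_span_finite (R := ℚ) (fun k : ℕ => (sub G).mkQ (c ^ (k + 1)))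
      (linearIndependent_iff'.2 fun t g hg i hi => ?_) ((sub G).mkQ '' s) ?_)
  · simp only [← map_smul, ← map_sum] at hg
    have h1 : ∑ j ∈ t, g j • c ^ (j + 1) ∈ G := mem_sub.1 ((Submodule.Quotient.mk_eq_zero _).1 hg)
    by_contra h2
    refine hc (hG.1.le (mem_ac_iff_alg.2 ⟨∑ j ∈ t, monomial (j + 1) (g j : G) - C ⟨_, h1⟩,
      fun k => h2 ?_, ?_⟩))
    · have k1 := congrArg (fun P => coeff P (i + 1)) k
      simpa [coeff_monomial, hi] using k1
    · simp only [map_sub, map_sum, aeval_monomial, aeval_C, map_ratCast, Rat.smul_def]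
      exact sub_self _
  · rintro _ ⟨k, rfl⟩
    obtain ⟨a, ha, b, hb, e⟩ := Submodule.mem_sup.1 (h k)
    rw [← Submodule.map_span]
    refine ⟨b, hb, ?_⟩
    beta_reduce
    rw [← e, map_add, show (sub G).mkQ a = 0 from (Submodule.Quotient.mk_eq_zero _).2 ha, zero_add]

theorem rk_of_indep {F : Subfield ℂ} {n : ℕ} {u : Fin n → ℂ} (h : AlgebraicIndependent F u) :
    rk (F : Set ℂ) (range u) = n := by
  refine Tri.rk_eq fun i hi => h.transcendental_adjoin (s := Iio i) (i := i) (by simp) ?_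
  rw [← IntermediateField.isAlgebraic_adjoin_iff]
  have h1 : ac ((F : Set ℂ) ∪ u '' Iio i) ≤
      ac ((IntermediateField.adjoin F (u '' Iio i)).toSubfield : Set ℂ) :=
    ac_mono (union_subset (fun a ha => (IntermediateField.adjoin F (u '' Iio i)).algebraMap_mem
      ⟨a, ha⟩) (IntermediateField.subset_adjoin _ _))
  exact mem_ac_iff_alg.1 (h1 hi)

theorem defect (h : BoundedDefect A X) : ∃ N : ℕ, ∀ (n : ℕ) (x : Fin n → ℂ),
    (∀ i, x i ∈ X) → LI A x → (n : ℕ∞) ≤ rk (Fd A : Set ℂ) (gen x) + N := by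
  obtain ⟨N, h⟩ := h
  refine ⟨N, fun n x hx li => ?_⟩
  rcases le_total n N with k | k
  · exact le_trans (by exact_mod_cast k) le_add_self
  obtain ⟨m, rfl⟩ := Nat.exists_eq_add_of_le' k
  obtain ⟨f, hf⟩ := h m x hx li
  push_cast
  refine add_le_add ((rk_of_indep hf).ge.trans ((rk_anti' ?_).trans (rk_mono ?_))) le_rfl
  · rw [ac_closure, Fd, K, empty_union]
    exact Subset.rfl
  · rintro _ ⟨i, rfl⟩
    beta_reduce
    generalize f i = j0
    rcases j0 with j | j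
    exacts [Or.inl ⟨j, rfl⟩, Or.inr ⟨_, ⟨j, rfl⟩, rfl⟩]

theorem exists_st (h : BoundedDefect A X) {c : ℂ} (hc : c ∈ X) (h0 : c ∉ A) :
    ∃ s : Set ℂ, s.Finite ∧ c ∈ A ⊔ Submodule.span ℚ s ∧ St X (A ⊔ Submodule.span ℚ s) := by
  classical
  obtain ⟨N, h⟩ := defect h
  have exi : ∃ d : ℕ, ∃ (n : ℕ) (x : Fin n → ℂ), (∀ i, x i ∈ X) ∧ LI A x ∧ c ∈ sp A x ∧
      rk (Fd A : Set ℂ) (gen x) + N ≤ (n + d : ℕ) := by
    refine ⟨1 + N, 1, _, fun i => Fin.cases hc (fun i => i.elim0) i, li_one h0,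
      Submodule.mem_sup_right (Submodule.subset_span ⟨0, rfl⟩), ?_⟩
    rw [gen, range_one, image_singleton, ← add_assoc]
    push_cast
    exact add_le_add ((rk_union_le _ _ _).trans
      (add_le_add (rk_singleton_le _ _) (rk_singleton_le _ _))) le_rfl
  obtain ⟨n, x, x1, x2, x3, x4⟩ := Nat.find_spec exi
  refine ⟨range x, finite_range x, x3, fun m y y1 y2 => ?_⟩
  rcases m with _ | r
  · simp
  refine succ_le_of_not_le fun h1 => ?_
  have h2 : rk (Fd A : Set ℂ) (gen (Fin.append x y)) + N ≤ (n + Nat.find exi + r : ℕ) := by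
    refine (add_le_add ((rk_append A x y).trans (add_le_add le_rfl h1)) le_rfl).trans ?_
    rw [add_right_comm, Nat.cast_add _ r]
    exact add_le_add x4 le_rfl
  have h3 := (h _ _ (mem_append x1 y1) (li_append x2 y2)).trans h2
  norm_cast at h3
  refine Nat.find_min exi (m := Nat.find exi - 1) (by omega) ⟨_, _, mem_append x1 y1,
    li_append x2 y2, ?_, h2.trans (by norm_cast; omega)⟩
  have h4 : sp A x ≤ sp A (Fin.append x y) := sup_le_sup_left (Submodule.span_mono (by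
    rw [range_append]; exact subset_union_left)) _
  exact h4 x3

/-- A stage of the construction. -/
structure Stage (c : ℂ) where
  G : Subfield ℂ
  s : Set ℂ
  cl : Closed G
  notMem : c ∉ G
  le : G ≤ hull {c}
  fin : s.Finite
  mem : c ∈ sub G ⊔ Submodule.span ℚ s
  st : St (hull {c}) (sub G ⊔ Submodule.span ℚ s)

theorem Stage.next {c : ℂ} (σ : Stage c) : ∃ (τ : Stage c) (x : ℂ), σ.G ≤ τ.G ∧ x ∈ τ.G ∧
    x ∉ hull ∅ ∧ ∀ z ∈ hull {x}, z ∈ σ.G → z ∈ hull ∅ := by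
  obtain ⟨k, hk⟩ := exists_pow σ.cl σ.notMem σ.fin
  obtain ⟨l, hl⟩ := exists_pow σ.cl σ.notMem (σ.fin.insert (c ^ (k + 1)))
  set B := sub σ.G ⊔ Submodule.span ℚ σ.s with hB
  let w : Fin 2 → ℂ := Fin.cons (c ^ (l + 1)) (Fin.cons (c ^ (k + 1)) Fin.elim0)
  have li : LI B w := li_cons (li_one hk) (by
    rwa [sp, range_one, hB, sup_assoc, ← Submodule.span_union, union_singleton])
  have hw : ∀ {F : Subfield ℂ}, c ∈ F → ∀ i, w i ∈ F := fun h =>
    Fin.forall_fin_two.2 ⟨pow_mem h _, pow_mem h _⟩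
  have w1 := hw (subset_hull {c} rfl)
  have w2 := hw (Fd_mem σ.mem).1
  have x1 : E (w 0) + E (w 1) ∈ hull {c} :=
    add_mem (((hull_closed _).2 _).1 (w1 0)) (((hull_closed _).2 _).1 (w1 1))
  have hX : ∀ {G : Subfield ℂ}, G ≤ σ.G → hull (G ∪ {E (w 0) + E (w 1)}) ≤ hull {c} := fun h =>
    hull_le (hull_closed _) (union_subset (h.trans σ.le) (singleton_subset_iff.2 x1))
  have hG : ∀ {G : Subfield ℂ}, G ≤ σ.G → (G : Set ℂ) ⊆ B := fun h a ha =>
    Submodule.mem_sup_left (mem_sub.2 (h ha))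
  have e0 : hull ∅ ≤ σ.G := hull_le σ.cl (empty_subset _)
  obtain ⟨a1, a2, a3⟩ := σ.st.free σ.cl (hG le_rfl) w1 w2 li (hX le_rfl)
  obtain ⟨-, -, a4⟩ := σ.st.free (hull_closed ∅) (hG e0) w1 w2 li (hX e0)
  have le : σ.G ≤ hull (σ.G ∪ {E (w 0) + E (w 1)}) := fun a ha => subset_hull _ (Or.inl ha)
  have le' : sub σ.G ≤ sub (hull (σ.G ∪ {E (w 0) + E (w 1)})) := Submodule.span_mono le
  refine ⟨⟨hull (σ.G ∪ {E (w 0) + E (w 1)}), σ.s ∪ range w, hull_closed _,
    fun h => σ.notMem (a3 c h (Fd_mem σ.mem).1), hX le_rfl, σ.fin.union (finite_range w),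
    sup_le_sup le' (Submodule.span_mono subset_union_left) σ.mem, ?_⟩, _, le,
    subset_hull _ (Or.inr rfl), fun h => a2 (Fd_mem (hG e0 h)).1, fun z z1 z2 =>
      a4 z (hull_le (hull_closed _) (subset_union_right.trans (subset_hull _)) z1)
        (Fd_mem (hG le_rfl z2)).1⟩
  have wB : ∀ i, E (w i) ∈ Fd (sp B w) := fun i =>
    (Fd_mem (Submodule.mem_sup_right (Submodule.subset_span (mem_range_self i)))).2
  have := a1.cl (S := σ.G ∪ {E (w 0) + E (w 1)}) (union_subset (fun a ha =>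
    (Fd_mem (Submodule.mem_sup_left (hG le_rfl ha))).1)
    (singleton_subset_iff.2 (add_mem (wB 0) (wB 1)))) (hX le_rfl)
  rwa [sp, sup_assoc (sub σ.G), ← Submodule.span_union, sup_right_comm, sup_eq_right.2 le'] at this

theorem EL_two : EL 2 = hull ∅ := by
  rw [EL_eq two_ne_zero (by norm_num)]
  exact Subset.antisymm (hull_le (hull_closed _) (singleton_subset_iff.2 (natCast_mem (hull ∅) 2)))
    (hull_le (hull_closed _) (empty_subset _))

theorem EL_of {c : ℂ} (h : c ∉ hull ∅) : EL c = hull {c} :=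
  EL_eq (fun e => h (e ▸ zero_mem _)) fun e => h (e ▸ one_mem _)

theorem bounded_defect {c : ℂ} (hc : c ∉ EL 2) (hA : (A : Set ℂ) ⊆ EL 2)
    (h : BoundedDefect A (EL c)) :
    ∃ b : ℕ → ℂ, (∀ i, Transcendental ℚ (b i) ∧ EL 2 ⊂ EL (b i) ∧ EL (b i) ⊂ EL c) ∧
      ∀ i j, i ≠ j → EL (b i) ∩ EL (b j) = EL 2 := by
  rw [EL_two] at hc hA ⊢
  rw [EL_of hc] at h ⊢
  have e0 : ∀ B, hull ∅ ≤ hull B := fun B => hull_le (hull_closed _) (empty_subset _)
  obtain ⟨s, s1, s2, s3⟩ := exists_st h (subset_hull {c} rfl) fun e => hc (hA e)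
  have le : A ≤ sub (hull ∅) := fun a ha => mem_sub.2 (hA ha)
  have s4 := s3.cl (empty_subset _) (e0 _)
  rw [sup_right_comm, sup_eq_right.2 le] at s4
  let σ : Stage c := ⟨hull ∅, s, hull_closed _, hc, e0 _, s1, sup_le_sup_right le _ s2, s4⟩
  choose f x h1 h2 h3 h4 using Stage.next (c := c)
  have mono : Monotone fun n => (f^[n] σ).G := monotone_nat_of_le_succ fun n => by
    rw [Function.iterate_succ_apply']; exact h1 _
  have low : ∀ τ, hull {x τ} ≤ (f τ).G := fun τ => hull_le (f τ).cl (singleton_subset_iff.2 (h2 τ))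
  have key : ∀ i j, i < j → (hull {x (f^[i] σ)} : Set ℂ) ∩ hull {x (f^[j] σ)} = hull ∅ := by
    intro i j k
    refine Subset.antisymm (fun z hz => h4 _ z hz.2 (mono (Nat.succ_le_of_lt k) ?_))
      (subset_inter (e0 _) (e0 _))
    beta_reduce
    rw [Function.iterate_succ_apply']
    exact low _ hz.1
  refine ⟨fun n => x (f^[n] σ), fun i => ⟨fun ha => h3 (f^[i] σ) ?_, ?_, ?_⟩, fun i j k => ?_⟩
  · refine (hull_closed ∅).1.le (mem_ac_iff_alg.2 ?_)
    exact ha.extendScalars (algebraMap ℚ (hull ∅)).injective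
  · rw [EL_of (h3 _)]
    exact ⟨e0 _, fun k => h3 _ (k (subset_hull _ rfl))⟩
  · rw [EL_of (h3 _)]
    exact ⟨(low _).trans (f _).le, fun k => (f _).notMem (low _ (k (subset_hull _ rfl)))⟩
  · rw [EL_of (h3 _), EL_of (h3 _)]
    rcases k.lt_or_gt with k | k
    · exact key i j k
    · rw [inter_comm]; exact key j i k

end Pool.Agent.MP_bdc901_nt
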