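import Mathlib
import Pool.Agent.MP_bdc901_nt.Bd

/-! The Schanuel conjecture implies the bounded defect hypothesis. -/

open Set Pool.Agent.MP_0e4269_lc.Z

namespace Pool.Agent.MP_bdc901_nt

theorem indep_of_tri {F : Subfield ℂ} {n : ℕ} {u : Fin n → ℂ} (h : Tri (F : Set ℂ) u) :
    AlgebraicIndependent F u := by
  classical
  refine algebraicIndependent_of_finite_type' (algebraMap F ℂ).injective fun t _ _ i hi k => ?_
  rw [← IntermediateField.isAlgebraic_adjoin_iff] at k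
  have h1 : u i ∈ ac ((F : Set ℂ) ∪ u '' {i}ᶜ) := by
    refine ac_le (T := (F : Set ℂ) ∪ u '' {i}ᶜ) (fun a ha => ?_)
      (mem_ac_iff_alg (K := (IntermediateField.adjoin F (u '' t)).toSubfield).2 k)
    have e : (IntermediateField.adjoin F (u '' t)).toSubfield ≤ ac ((F : Set ℂ) ∪ u '' {i}ᶜ) := by
      rw [IntermediateField.adjoin_toSubfield, Subfield.closure_le]
      rintro _ (⟨b, rfl⟩ | ⟨j, hj, rfl⟩)
      · exact subset_ac _ (Or.inl b.2)
      · exact subset_ac _ (Or.inr ⟨j, fun e => hi (e ▸ hj), rfl⟩)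
    exact e ha
  have h2 : (n : ℕ∞) ≤ (u '' {i}ᶜ).encard := h.rk_eq.ge.trans ((rk_le_of_subset (by
    rintro _ ⟨j, rfl⟩
    by_cases e : j = i
    · rwa [e]
    · exact subset_ac _ (Or.inr ⟨j, e, rfl⟩))).trans (rk_le_encard _ _))
  have h3 := h2.trans (encard_image_le _ _)
  rw [← Finset.coe_singleton, ← Finset.coe_compl, encard_coe_eq_coe_finsetCard,
    Finset.card_compl, Fintype.card_fin, Finset.card_singleton, Nat.cast_le] at h3
  have := i.pos
  omega

theorem boundedDefect_of_schanuel (h : Schanuel) (S : Set ℂ) : BoundedDefect ⊥ S := by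
  refine ⟨1, fun n z _ li => ?_⟩
  obtain ⟨f, hf⟩ := h (n + 1) (fun i => lam * z i) (Fintype.linearIndependent_iff.2 fun g hg => by
    simp only [← mul_smul_comm, ← Finset.mul_sum] at hg
    exact congrFun (li g ((mul_eq_zero.1 hg).resolve_left lam_ne)))
  have h1 : (AlgebraicIndependent.matroid ℚ ℂ).Indep _ := hf.to_subtype_range
  have h2 : ((n + 1 : ℕ) : ℕ∞) ≤ rk ∅ (ac (∅ ∪ insert lam (gen z)) : Set ℂ) := by
    rw [rk, Matroid.contract_empty]
    refine le_trans (by simpa using hf.injective.encard_range) (h1.encard_le_eRk_of_subset ?_)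
    rintro _ ⟨i, rfl⟩
    beta_reduce
    generalize f i = j0
    rcases j0 with j | j
    · exact mul_mem (subset_ac _ (Or.inr (Or.inl rfl)) : lam ∈ ac _)
        (subset_ac _ (Or.inr (Or.inr (Or.inl ⟨j, rfl⟩))))
    · exact subset_ac _ (Or.inr (Or.inr (Or.inr ⟨_, ⟨j, rfl⟩, rfl⟩)))
  rw [rk_ac_right] at h2
  have h3 : (Subfield.closure (((⊥ : Submodule ℚ ℂ) : Set ℂ) ∪ ex '' (⊥ : Submodule ℚ ℂ)) : Set ℂ) ⊆
      ac (∅ : Set ℂ) := Subfield.closure_le.2 (by
    rintro _ (ha | ⟨a, ha, rfl⟩)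
    · obtain rfl := (Submodule.mem_bot ℚ).1 ha
      exact zero_mem _
    · obtain rfl := (Submodule.mem_bot ℚ).1 ha
      change E 0 ∈ _
      rw [E_zero]
      exact one_mem _)
  have h4 := h2.trans ((rk_insert_le _ _ _).trans (add_le_add (rk_anti' h3) le_rfl))
  push_cast at h4
  obtain ⟨u, u1, u2⟩ := exists_tri ((ENat.add_le_add_iff_right (by simp)).1 h4)
  have u3 : ∀ i, ∃ j, Sum.elim z (fun j => ex (z j)) j = u i := fun i => by
    rcases u1 i with ⟨j, e⟩ | ⟨_, ⟨j, rfl⟩, e⟩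
    exacts [⟨Sum.inl j, e⟩, ⟨Sum.inr j, e⟩]
  choose g hg using u3
  exact ⟨g, by simpa only [hg] using indep_of_tri u2⟩

end Pool.Agent.MP_bdc901_nt
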