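import Mathlib
import Pool.Agent.MP_bdc901_nt.Core
import Pool.Agent.MP_0e4269_lc.z.Etale
import Pool.Agent.MP_0e4269_lc.z.Gauss
import Pool.Agent.MP_0e4269_lc.z.Ros
import Pool.Agent.MP_0e4269_lc.z.Wind

/-! The generic case: derivations from tangent vectors and the theorem of Ax. -/

open Set Filter Topology Pool.Agent.MP_0e4269_lc.Z

namespace Pool.Agent.MP_bdc901_nt

theorem smooth_field (F L : Type) [Field F] [Field L] [Algebra F L] [CharZero F] :
    Algebra.FormallySmooth F L := by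
  obtain ⟨s, hs⟩ := exists_isTranscendenceBasis F L
  have := hs.isAlgebraic_field
  exact .of_algebraicIndependent_of_isSeparable hs.1

open TrivSqZeroExt in
/-- A tangent vector of the locus of a point extends to a derivation. -/
theorem exists_der {ι : Type} (w v : ι → ℂ) (h : ∀ p : MvPolynomial ι ℚ,
    MvPolynomial.aeval w p = 0 →
      MvPolynomial.aeval (fun i => (inl (w i) + inr (v i) : TrivSqZeroExt ℂ ℂ)) p = 0) :
    ∃ D : Derivation ℤ ℂ ℂ, ∀ i, D (w i) = v i := by
  let f : MvPolynomial ι ℚ →+* ℂ := (MvPolynomial.aeval w).toRingHom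
  let Φ : MvPolynomial ι ℚ →+* TrivSqZeroExt ℂ ℂ :=
    (MvPolynomial.aeval fun i => (inl (w i) + inr (v i) : TrivSqZeroExt ℂ ℂ)).toRingHom
  let R := MvPolynomial ι ℚ ⧸ RingHom.ker f
  let a1 : Algebra R ℂ := (RingHom.kerLift f).toAlgebra
  let a2 : Algebra R (TrivSqZeroExt ℂ ℂ) := (Ideal.Quotient.lift (RingHom.ker f) Φ h).toAlgebra
  have inj : Function.Injective (algebraMap R ℂ) := RingHom.kerLift_injective f
  have : IsDomain R := inj.isDomain _
  have : FaithfulSMul R ℂ := (faithfulSMul_iff_algebraMap_injective _ _).2 inj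
  let a3 := FractionRing.liftAlgebra R ℂ
  have := FractionRing.isScalarTower_liftAlgebra R ℂ
  have : CharZero (FractionRing R) := (algebraMap (FractionRing R) ℂ).charZero
  have := smooth_field (FractionRing R) ℂ
  have : Algebra.FormallySmooth R (FractionRing R) := .of_isLocalization (nonZeroDivisors R)
  have : Algebra.FormallySmooth R ℂ := .comp R (FractionRing R) ℂ
  have e : (fstHom ℚ ℂ ℂ).toRingHom.comp Φ = f :=
    MvPolynomial.ringHom_ext (fun q => by simp [f, Φ]) fun i => by simp [f, Φ]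
  let g : TrivSqZeroExt ℂ ℂ →ₐ[R] ℂ :=
    { (fstHom ℚ ℂ ℂ).toRingHom with
      commutes' := fun r => by
        obtain ⟨p, rfl⟩ := Ideal.Quotient.mk_surjective r
        exact RingHom.congr_fun e p }
  have g1 : Function.Surjective g := fun a => ⟨inl a, rfl⟩
  have g2 : IsNilpotent (RingHom.ker (g : TrivSqZeroExt ℂ ℂ →+* ℂ)) := ⟨2, by
    rw [Submodule.pow_succ, Submodule.pow_one, Ideal.zero_eq_bot, eq_bot_iff, Ideal.mul_le]
    intro a ha b hb
    have ha' : a.fst = 0 := ha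
    have hb' : b.fst = 0 := hb
    rw [Ideal.mem_bot]
    ext <;> simp [ha', hb']⟩
  let ψ := Algebra.FormallySmooth.liftOfSurjective (AlgHom.id R ℂ) g g1 g2
  have hψ : ∀ a, (ψ a).fst = a := fun a =>
    Algebra.FormallySmooth.liftOfSurjective_apply (AlgHom.id R ℂ) g g1 g2 a
  let d : ℂ →+ ℂ := ⟨⟨fun a => (ψ a).snd, by simp⟩, fun a b => by simp⟩
  refine ⟨Derivation.mk' d.toIntLinearMap fun a b => ?_, fun i => ?_⟩
  · change (ψ (a * b)).snd = a • (ψ b).snd + b • (ψ a).snd
    rw [map_mul, snd_mul, hψ, hψ]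
    simp [mul_comm]
  · have e1 : w i = algebraMap R ℂ (Ideal.Quotient.mk _ (MvPolynomial.X i)) :=
      (MvPolynomial.aeval_X w i).symm
    change (ψ (w i)).snd = v i
    rw [e1, ψ.commutes]
    change (Φ (MvPolynomial.X i)).snd = v i
    simp [Φ]

open TrivSqZeroExt in
theorem tangent {ι : Type} [Fintype ι] {S : Set (ι → ℂ)} (hS : ¬ S.Countable) :
    ∃ x ∈ S, ∃ D : Derivation ℤ ℂ ℂ, (∀ i, D (Complex.exp (x i)) = Complex.exp (x i) * D (x i)) ∧
      (∃ i, D (x i) ≠ 0) ∧ ∀ i, (∀ y ∈ S, y i = x i) → D (x i) = 0 := by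
  let w : (ι → ℂ) → ι ⊕ ι → ℂ := fun x => Sum.elim x fun i => Complex.exp (x i)
  let I : (ι → ℂ) → Ideal (MvPolynomial (ι ⊕ ι) ℚ) := fun x =>
    RingHom.ker (MvPolynomial.aeval (w x)).toRingHom
  have : Countable (MvPolynomial (ι ⊕ ι) ℚ) := Cardinal.mk_le_aleph0_iff.1
    (MvPolynomial.cardinalMk_le_max_lift.trans (by simp))
  have : Countable (Ideal (MvPolynomial (ι ⊕ ι) ℚ)) :=
    Function.Surjective.countable (f := fun s : Finset (MvPolynomial (ι ⊕ ι) ℚ) =>
      Ideal.span (s : Set (MvPolynomial (ι ⊕ ι) ℚ))) fun J => IsNoetherian.noetherian J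
  obtain ⟨J, hJ⟩ : ∃ J, ¬ (S ∩ {x | I x = J}).Countable := by
    by_contra h
    push Not at h
    exact hS ((countable_iUnion h).mono fun x hx => mem_iUnion.2 ⟨I x, mem_inter hx (by simp)⟩)
  set T := S ∩ {x | I x = J} with hT
  obtain ⟨x, hx, ha⟩ : ∃ x ∈ T, AccPt x (𝓟 T) := by
    by_contra h
    push Not at h
    have : DiscreteTopology T := discreteTopology_subtype_iff.2 fun x hx =>
      not_neBot.1 (h x hx)
    exact hJ (countable_coe_iff.1 countable_of_Lindelof_of_discrete)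
  obtain ⟨v, hv, hv0⟩ := tangentConeAt_nonempty_of_properSpace (𝕜 := ℂ) ha
  have zero : ∀ (F : (ι → ℂ) → ℂ) (L : (ι → ℂ) →L[ℂ] ℂ), HasFDerivAt F L x →
      (∀ y ∈ T, F y = F x) → L v = 0 := fun F L h1 h2 =>
    h1.hasFDerivWithinAt.unique_on
      ((hasFDerivWithinAt_const (F x) x T).congr h2 rfl) hv
  let v' : ι ⊕ ι → ℂ := Sum.elim v fun i => Complex.exp (x i) * v i
  have hX : ∀ j, ∃ L : (ι → ℂ) →L[ℂ] ℂ, HasFDerivAt (fun y => w y j) L x ∧ L v = v' j := by
    rintro (i | i)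
    · exact ⟨_, hasFDerivAt_apply i x, rfl⟩
    · exact ⟨_, (hasFDerivAt_apply i x).cexp, by simp [v']⟩
  have key : ∀ p : MvPolynomial (ι ⊕ ι) ℚ, ∃ L : (ι → ℂ) →L[ℂ] ℂ,
      HasFDerivAt (fun y => MvPolynomial.aeval (w y) p) L x ∧
      MvPolynomial.aeval (fun j => (inl (w x j) + inr (v' j) : TrivSqZeroExt ℂ ℂ)) p =
        inl (MvPolynomial.aeval (w x) p) + inr (L v) := by
    intro p
    induction p using MvPolynomial.induction_on with
    | C a => exact ⟨0, by simpa using hasFDerivAt_const _ _, by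
        ext <;> simp [TrivSqZeroExt.algebraMap_eq_inl']⟩
    | add p q hp hq =>
      obtain ⟨L, h1, h2⟩ := hp
      obtain ⟨L', h3, h4⟩ := hq
      exact ⟨L + L', by simpa using h1.fun_add h3, by rw [map_add, h2, h4]; ext <;> simp⟩
    | mul_X p j hp =>
      obtain ⟨L, h1, h2⟩ := hp
      obtain ⟨L', h3, h4⟩ := hX j
      refine ⟨_, by simpa using h1.fun_mul h3, ?_⟩
      rw [map_mul, h2, MvPolynomial.aeval_X]
      ext <;> simp [h4, mul_comm, add_comm]
  obtain ⟨D, hD⟩ := exists_der (w x) v' fun p hp => by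
    obtain ⟨L, h1, h2⟩ := key p
    have h3 : L v = 0 := zero _ L h1 fun y hy => by
      have : p ∈ I y := by rw [hy.2.trans hx.2.symm]; exact hp
      exact (this : MvPolynomial.aeval (w y) p = 0).trans hp.symm
    rw [h2, hp, h3]; simp
  have h1 : ∀ i, D (x i) = v i := fun i => hD (Sum.inl i)
  refine ⟨x, hx.1, D, fun i => by rw [h1]; exact hD (Sum.inr i), ?_, fun i hi => ?_⟩
  · by_contra h
    push Not at h
    exact hv0 (funext fun i => by rw [← h1, h]; rfl)
  · rw [h1]
    exact zero _ _ (hasFDerivAt_apply i x) fun y hy => hi y hy.1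

/-- The exponents on which a derivation is compatible with `E`. -/
def Xd (D : Derivation ℤ ℂ ℂ) : Submodule ℚ ℂ :=
  have add : ∀ {a b : ℂ}, D (E a) = lam * E a * D a → D (E b) = lam * E b * D b →
      D (E (a + b)) = lam * E (a + b) * D (a + b) := fun ha hb => by
    rw [E_add, D.leibniz, ha, hb, map_add]; simp only [smul_eq_mul]; ring
  { carrier := {y | D (E y) = lam * E y * D y}
    add_mem' := add
    zero_mem' := by simp [E_zero]
    smul_mem' := fun q y (hy : D (E y) = lam * E y * D y) => by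
      have h1 := congrArg D (E_rat q y)
      have h2 := E_rat q y
      have h3 : (q.den : ℂ) * D (q • y) = q.num * D y := by
        have : (q.den : ℂ) * (q • y) = q.num * y := by
          rw [Rat.smul_def, ← mul_assoc, mul_comm (q.den : ℂ)]
          congr 1; exact_mod_cast Rat.mul_den_eq_num q
        have h := congrArg D this
        rwa [D.leibniz, D.leibniz, D.map_natCast, D.map_intCast, smul_zero, smul_zero, add_zero,
          add_zero] at h
      have h4 : (q.den : ℂ) ≠ 0 := by exact_mod_cast q.den_nz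
      have h5 := E_ne (q • y)
      have h6 := E_ne y
      rw [D.leibniz_pow, D.leibniz_zpow, hy, zpow_sub_one₀ h6, ← h2,
        pow_sub₀ _ h5 (Nat.one_le_iff_ne_zero.2 q.den_nz), pow_one] at h1
      simp only [nsmul_eq_mul, zsmul_eq_mul, smul_eq_mul] at h1
      change D (E (q • y)) = lam * E (q • y) * D (q • y)
      field_simp at h1
      apply mul_left_cancel₀ h4
      linear_combination h1 - lam * E (q • y) * h3 }

theorem generic {T : Set ℂ} (hT : ¬ T.Countable) (s : ℂ → Set ℂ) (hs : ∀ t ∈ T, (s t).Finite)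
    (b : ℂ) : ∃ t ∈ T, ∃ D : Derivation ℤ ℂ ℂ, D lam = 0 ∧ D b = 0 ∧ insert t (s t) ⊆ Xd D ∧
      ∃ y ∈ insert t (s t), D y ≠ 0 := by
  let S : (n : ℕ) → Set (Fin 2 ⊕ Fin (n + 1) → ℂ) := fun n => {x | ∃ t ∈ T, ∃ e : Fin n → ℂ,
    range e = s t ∧ x = Sum.elim ![lam, b] fun i => lam * (Fin.cons t e : Fin (n + 1) → ℂ) i}
  obtain ⟨n, hn⟩ : ∃ n, ¬ (S n).Countable := by
    by_contra h
    push Not at h
    refine hT ((countable_iUnion fun n => (h n).image fun x => x (Sum.inr 0) / lam).mono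
      fun t ht => ?_)
    obtain ⟨n, e, -, he⟩ := (hs t ht).fin_param
    exact mem_iUnion.2 ⟨n, _, ⟨t, ht, e, he, rfl⟩, by simp [lam_ne]⟩
  obtain ⟨_, ⟨t, ht, e, he, rfl⟩, D, h1, h2, h3⟩ := tangent hn
  have c : ∀ i : Fin 2, D (![lam, b] i) = 0 := fun i => h3 (Sum.inl i) (by
    rintro _ ⟨t', -, e', -, rfl⟩; rfl)
  have hl : D lam = 0 := c 0
  have m : ∀ y, D (lam * y) = lam * D y := fun y => by simp [hl]
  refine ⟨t, ht, D, hl, c 1, ?_, ?_⟩
  · rw [← he, ← Fin.range_cons]
    rintro _ ⟨i, rfl⟩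
    have := h1 (Sum.inr i)
    simp only [Sum.elim_inr, m] at this
    exact this.trans (by rw [E]; ring)
  · obtain ⟨i | i, hi⟩ := h2
    · exact absurd (c i) hi
    · refine ⟨_, by rw [← he, ← Fin.range_cons]; exact ⟨i, rfl⟩, fun h => hi ?_⟩
      simp only [Sum.elim_inr, m, h, mul_zero]

variable {D : Derivation ℤ ℂ ℂ}

theorem ac_ker (D : Derivation ℤ ℂ ℂ) : ac (Dex.ker D : Set ℂ) = Dex.ker D :=
  le_antisymm (fun y hy => Dex.kills D _ (fun _ h => h) y hy) (le_ac _)

theorem ker_iff {y : ℂ} (h : y ∈ Xd D) : D (E y) = 0 ↔ D y = 0 := by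
  rw [show D (E y) = lam * E y * D y from h]
  simp [lam_ne, E_ne]

theorem Tw.kills {B s : Set ℂ} (h : Tw B s) (hs : s ⊆ Xd D) (hB : ∀ b ∈ B, D b = 0) :
    K B s ≤ Dex.ker D := by
  induction h with
  | nil => exact K_le (ac_ker D) hB (by simp)
  | cons _ hy ih =>
    rw [insert_subset_iff] at hs
    have h1 := ih hs.2
    refine K_le (ac_ker D) hB ?_
    rintro a (rfl | ha)
    · exact hy.elim (fun h => ⟨h1 h, (ker_iff hs.1).2 (h1 h)⟩)
        fun h => ⟨(ker_iff hs.1).1 (h1 h), h1 h⟩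
    · exact ⟨h1 (K_mem ha), h1 (K_exp ha)⟩

/-- The base that belongs to a derivation. -/
noncomputable def dBase (D : Derivation ℤ ℂ ℂ) : Base where
  C := {a | D a = 0}
  A := Xd D ⊓ sub (Dex.ker D)
  X := Xd D
  mem := fun _ ha => ⟨subset_ac _ (mem_sub.1 ha.2), subset_ac _ ((ker_iff ha.1).2 (mem_sub.1 ha.2))⟩

theorem sp_of_der (hl : D lam = 0) {t : ℂ} (ht : D t ≠ 0) : SP (dBase D) t := by
  intro n x hx li
  rcases Nat.eq_zero_or_pos n with rfl | hn
  · exact one_le_rk (K_base (Or.inr rfl)) fun h => ht ((ac_ker D).le h)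
  have m : ∀ y, D (lam * y) = lam * D y := fun y => by simp [hl]
  refine (ax dex (ros dex wind) ℂ D 1 n (fun i => lam * x i) (fun i => E (x i)) one_ne_zero hn.ne'
    (fun i => E_ne _) (fun i => ?_) fun q hq => li q ⟨?_, mem_sub.2 ?_⟩).trans (rk_mono ?_)
  · rw [m, show D (E (x i)) = _ from hx i]; push_cast; ring
  · exact Submodule.sum_mem _ fun i _ => Submodule.smul_mem _ _ (hx i)
  · simp only [← mul_smul_comm, ← Finset.mul_sum, m] at hq
    exact (mul_eq_zero.1 hq).resolve_left lam_ne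
  · rintro _ (⟨i, rfl⟩ | ⟨i, rfl⟩)
    · exact mul_mem (K_base (Or.inl hl)) (K_mem ⟨i, rfl⟩)
    · exact K_exp ⟨i, rfl⟩

theorem countable_of_tw {T : Set ℂ} (B : ℂ → Set ℂ) (h : ∀ t ∈ T, t ∈ hull (B t))
    (h' : ∀ (t : ℂ) (D : Derivation ℤ ℂ ℂ), t ∈ Xd D → D t = 0 → ∀ b ∈ B t, D b = 0)
    (h'' : ∀ (t : ℂ) (β : Base), SP β t → t ∈ β.X → ∀ n x, IT β (B t) n x →
      t ∉ K (β.C ∪ B t) (range x)) : T.Countable := by
  by_contra hT
  choose! s h1 h2 using fun t ht => exists_tw (finite_singleton t) (singleton_subset_iff.2 (h t ht))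
  obtain ⟨t, ht, D, hl, -, h3, y, hy, h4⟩ := generic hT s (fun t ht => (h1 t ht).finite) 0
  rw [insert_subset_iff] at h3
  by_cases h5 : D t = 0
  · rcases hy with rfl | hy
    · exact h4 h5
    · exact h4 ((h1 t ht).kills h3.2 (h' t D h3.1 h5) (K_mem hy))
  · obtain ⟨n, x, h6, h7⟩ := (h1 t ht).refine (β := dBase D) h3.2
    exact h'' t _ (sp_of_der hl h5) h3.1 n x h6 (h7 (h2 t ht rfl))

theorem SP.notMem0 {β : Base} {t : ℂ} (h : SP β t) {n : ℕ} {x : Fin n → ℂ} (hx : IT β ∅ n x) :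
    t ∉ K (β.C ∪ ∅) (range x) := fun h1 => by
  have h2 := hx.rk_le
  rw [union_empty] at h1 h2
  have h3 := (h n x hx.mem hx.li).trans ((rk_mono (K_le (K_ac _ _) (union_subset
    (fun a ha => K_base ha) (singleton_subset_iff.2 h1)) fun a ha => ⟨K_mem ha, K_exp ha⟩)).trans h2)
  norm_cast at h3
  omega

theorem countable_fiber (b : ℂ) : {t | nxt t = b}.Countable := by
  by_contra hT
  obtain ⟨t, ht, D, hl, hb, h3, y, hy, h4⟩ := generic hT (fun _ => ∅) (fun _ _ => finite_empty) b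
  obtain rfl : y = t := by simpa using hy
  have h5 : D (E y) = lam * E y * D y := h3 hy
  rw [← show nxt y = b from ht, nxt_eq, map_add, h5] at hb
  have h6 : lam * E y = -1 := by
    apply mul_right_cancel₀ h4
    linear_combination hb
  have h7 := congrArg D h6
  simp [hl, lam_ne, h5, E_ne, h4] at h7

theorem countable_bad : {c | ¬ Desc c}.Countable := by
  have h1 : {t | t ∈ hull ∅}.Countable := countable_of_tw (fun _ => ∅) (fun _ h => h)
    (by simp) fun t β h _ n x hx => h.notMem0 hx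
  have h2 : {t | t ∈ hull {nxt t}}.Countable := countable_of_tw (fun t => {nxt t}) (fun _ h => h)
    (fun t D h h0 b hb => by rw [hb, nxt_eq, map_add, h0, (ker_iff h).2 h0, add_zero])
    fun t β h ht n x hx => h.notMem ht hx
  have h3 : ∀ (k : ℕ) (S : Set ℂ), S.Countable → (nxt^[k] ⁻¹' S).Countable := by
    intro k
    induction k with
    | zero => exact fun _ h => h
    | succ k ih =>
      intro S hS
      rw [Function.iterate_succ', preimage_comp]
      exact ih _ ((hS.biUnion fun b _ => countable_fiber b).mono fun t ht =>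
        mem_biUnion (x := nxt t) (t := fun b => {t | nxt t = b}) ht rfl)
  refine (countable_iUnion fun k => h3 k _ (h1.union h2)).mono fun c hc => ?_
  by_contra h
  simp only [mem_iUnion, mem_preimage, mem_union, mem_ofPred_eq, not_exists, not_or] at h
  exact hc (desc_of h)

end Pool.Agent.MP_bdc901_nt

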